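import Pool.Agent.H38.SymDec.Growth

/-!
Algebra part: local algebras with residue field `k`, maximal ideal with two generators and
one-dimensional socle.
-/

open Module IsLocalRing

namespace Pool.Agent.H38.SymDec

section filtration

variable {A : Type*} [CommRing A]

/-- The fine filtration attached to two elements. -/
def FI (ξ η : A) (j : ℕ) : Ideal A := Ideal.span {z | ∃ a b : ℕ, j ≤ 2 * a + b ∧ z = ξ ^ a * η ^ b}

theorem FI_mem (ξ η : A) {j a b : ℕ} (h : j ≤ 2 * a + b) : ξ ^ a * η ^ b ∈ FI ξ η j :=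
  Ideal.subset_span ⟨a, b, h, rfl⟩

theorem FI_zero (ξ η : A) : FI ξ η 0 = ⊤ := by
  rw [Ideal.eq_top_iff_one]
  have := FI_mem ξ η (j := 0) (a := 0) (b := 0) (by omega)
  simpa using this

theorem FI_anti (ξ η : A) (j : ℕ) : FI ξ η (j + 1) ≤ FI ξ η j := by
  apply Ideal.span_mono
  rintro z ⟨a, b, h, rfl⟩
  exact ⟨a, b, by omega, rfl⟩

theorem FI_mul (ξ η : A) (i j : ℕ) : FI ξ η i * FI ξ η j ≤ FI ξ η (i + j) := by
  unfold FI
  rw [Ideal.span_mul_span']
  apply Ideal.span_mono
  rintro _ ⟨_, ⟨a, b, h, rfl⟩, _, ⟨a', b', h', rfl⟩, rfl⟩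
  exact ⟨a + a', b + b', by omega, by ring⟩

theorem FI_X (ξ η : A) {j : ℕ} {v : A} (hv : v ∈ FI ξ η j) : ξ * v ∈ FI ξ η (j + 2) := by
  have h1 : ξ ∈ FI ξ η 2 := by
    have := FI_mem ξ η (j := 2) (a := 1) (b := 0) (by omega)
    simpa using this
  have := FI_mul ξ η 2 j (Ideal.mul_mem_mul h1 hv)
  rwa [add_comm 2 j] at this

theorem FI_Y (ξ η : A) {j : ℕ} {v : A} (hv : v ∈ FI ξ η j) : η * v ∈ FI ξ η (j + 1) := by
  have h1 : η ∈ FI ξ η 1 := by
    have := FI_mem ξ η (j := 1) (a := 0) (b := 1) (by omega)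
    simpa using this
  have := FI_mul ξ η 1 j (Ideal.mul_mem_mul h1 hv)
  rwa [add_comm 1 j] at this

theorem FI_even (ξ η : A) (i : ℕ) : FI ξ η (2 * i) = (Ideal.span {ξ, η ^ 2}) ^ i := by
  have hξ : ξ ∈ Ideal.span {ξ, η ^ 2} := Ideal.subset_span (by simp)
  have hη : η ^ 2 ∈ Ideal.span {ξ, η ^ 2} := Ideal.subset_span (by simp)
  apply le_antisymm
  · unfold FI
    rw [Ideal.span_le]
    rintro _ ⟨a, b, h, rfl⟩
    rw [SetLike.mem_coe]
    by_cases ha : i ≤ a
    · exact Ideal.mul_mem_right _ _ (Ideal.pow_le_pow_right ha (Ideal.pow_mem_pow hξ a))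
    · have hb : η ^ b = (η ^ 2) ^ (i - a) * η ^ (b - 2 * (i - a)) := by
        rw [← pow_mul, ← pow_add]
        congr 1
        omega
      rw [hb, ← mul_assoc]
      apply Ideal.mul_mem_right
      have := Ideal.mul_mem_mul (Ideal.pow_mem_pow hξ a) (Ideal.pow_mem_pow hη (i - a))
      rwa [← pow_add, show a + (i - a) = i by omega] at this
  · induction i with
    | zero => rw [Nat.mul_zero, FI_zero]; exact le_top
    | succ i ih =>
      rw [pow_succ']
      have h1 : Ideal.span {ξ, η ^ 2} ≤ FI ξ η 2 := by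
        rw [Ideal.span_le]
        rintro z hz
        rcases hz with rfl | hz
        · have := FI_mem z η (j := 2) (a := 1) (b := 0) (by omega)
          simpa using this
        · rw [Set.mem_singleton_iff] at hz
          subst hz
          have := FI_mem ξ η (j := 2) (a := 0) (b := 2) (by omega)
          simpa using this
      refine (Ideal.mul_mono h1 ih).trans ?_
      refine (FI_mul ξ η 2 (2 * i)).trans ?_
      rw [show 2 + 2 * i = 2 * (i + 1) by ring]

end filtration

section socle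

variable {k A : Type*} [Field k] [CommRing A] [Algebra k A] [IsLocalRing A]

/-- Every nonzero element has a nonzero multiple in the socle. -/
theorem exists_socle (hnil : IsNilpotent (maximalIdeal A)) {a : A} (ha : a ≠ 0) :
    ∃ b, b * a ≠ 0 ∧ b * a ∈ (maximalIdeal A).annihilator := by
  classical
  have hex : ∃ n, (maximalIdeal A) ^ n * Ideal.span {a} = ⊥ := by
    obtain ⟨n, hn⟩ := hnil
    refine ⟨n, ?_⟩
    rw [hn]
    exact Ideal.bot_mul _
  let n := Nat.find hex
  have hn : (maximalIdeal A) ^ n * Ideal.span {a} = ⊥ := Nat.find_spec hex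
  have hn0 : n ≠ 0 := by
    intro h0
    rw [h0, pow_zero, Ideal.one_eq_top, Ideal.top_mul, Ideal.span_singleton_eq_bot] at hn
    exact ha hn
  have hn1 : (maximalIdeal A) ^ (n - 1) * Ideal.span {a} ≠ ⊥ := Nat.find_min hex (by omega)
  obtain ⟨c, hc, hc0⟩ := Submodule.exists_mem_ne_zero_of_ne_bot hn1
  obtain ⟨b, hb, rfl⟩ := Ideal.mem_mul_span_singleton.1 hc
  refine ⟨b, hc0, ?_⟩
  rw [Submodule.mem_annihilator]
  intro m hm
  have h1 : m * (b * a) ∈ (maximalIdeal A) ^ n * Ideal.span {a} := by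
    have := Ideal.mul_mem_mul hm hc
    rwa [← mul_assoc, ← pow_succ', show n - 1 + 1 = n by omega] at this
  rw [hn] at h1
  rw [smul_eq_mul, mul_comm]
  exact h1

/-- A functional which does not vanish on the nonzero elements of a simple socle. -/
theorem exists_functional (hres : ∀ a : A, ∃ c : k, a - algebraMap k A c ∈ maximalIdeal A)
    (hs : IsSimpleModule A (maximalIdeal A).annihilator) :
    ∃ φ : A →ₗ[k] k, ∀ s ∈ (maximalIdeal A).annihilator, s ≠ 0 → φ s ≠ 0 := by
  have hnt : Nontrivial (maximalIdeal A).annihilator := IsSimpleModule.nontrivial A _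
  obtain ⟨⟨s, hs1⟩, hs0⟩ := exists_ne (0 : (maximalIdeal A).annihilator)
  have hs0' : s ≠ 0 := fun h => hs0 (Subtype.ext h)
  obtain ⟨φ, hφ⟩ : ∃ φ : Module.Dual k A, φ s ≠ 0 := by
    by_contra hcon
    push Not at hcon
    exact hs0' ((Module.forall_dual_apply_eq_zero_iff k s).1 hcon)
  refine ⟨φ, ?_⟩
  intro t ht ht0 hφt
  -- `s` is a multiple of `t`
  have htop : Submodule.span A {(⟨t, ht⟩ : (maximalIdeal A).annihilator)} = ⊤ := by
    rcases eq_bot_or_eq_top (Submodule.span A {(⟨t, ht⟩ : (maximalIdeal A).annihilator)}) with h | h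
    · rw [Submodule.span_singleton_eq_bot] at h
      exact absurd (congrArg Subtype.val h) ht0
    · exact h
  have hmem : (⟨s, hs1⟩ : (maximalIdeal A).annihilator) ∈
      Submodule.span A {(⟨t, ht⟩ : (maximalIdeal A).annihilator)} := by
    rw [htop]; trivial
  obtain ⟨b, hb⟩ := Submodule.mem_span_singleton.1 hmem
  have hb' : b * t = s := congrArg Subtype.val hb
  obtain ⟨c, hc⟩ := hres b
  have h1 : (b - algebraMap k A c) * t = 0 := by
    rw [Submodule.mem_annihilator] at ht
    have := ht _ hc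
    rwa [smul_eq_mul, mul_comm] at this
  have h2 : s = c • t := by
    rw [← hb', Algebra.smul_def, ← sub_eq_zero, ← sub_mul]
    exact h1
  rw [h2, map_smul, hφt, smul_zero] at hφ
  exact hφ rfl

end socle

section data

variable {k A : Type*} [Field k] [CommRing A] [Algebra k A] [IsLocalRing A]

/-- The bilinear form attached to a functional. -/
def Bφ (φ : A →ₗ[k] k) : LinearMap.BilinForm k A := (LinearMap.mul k A).compr₂ φ

omit [IsLocalRing A] in
theorem Bφ_apply (φ : A →ₗ[k] k) (a b : A) : Bφ φ a b = φ (a * b) := rfl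

omit [IsLocalRing A] in
theorem Bφ_symm (φ : A →ₗ[k] k) : (Bφ φ).IsSymm := by
  constructor
  intro a b
  rw [Bφ_apply, Bφ_apply, mul_comm]

theorem orthogonal_eq (hnil : IsNilpotent (maximalIdeal A)) (φ : A →ₗ[k] k)
    (hφ : ∀ s ∈ (maximalIdeal A).annihilator, s ≠ 0 → φ s ≠ 0) (I : Ideal A) :
    (Bφ φ).orthogonal (I.restrictScalars k) = (I.annihilator).restrictScalars k := by
  ext v
  rw [LinearMap.BilinForm.mem_orthogonal_iff, Submodule.restrictScalars_mem,
    Submodule.mem_annihilator]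
  constructor
  · intro h w hw
    by_contra hne
    obtain ⟨b, hb0, hb⟩ := exists_socle hnil hne
    refine hφ _ hb hb0 ?_
    have h1 := h (b * w) (by
      rw [Submodule.restrictScalars_mem]
      exact I.mul_mem_left b hw)
    change φ (b * w * v) = 0 at h1
    rw [smul_eq_mul, mul_comm v w, ← mul_assoc]
    exact h1
  · intro h w hw
    have h1 := h w hw
    change φ (w * v) = 0
    rw [smul_eq_mul, mul_comm] at h1
    rw [h1, map_zero]

theorem Bφ_nondegenerate (hnil : IsNilpotent (maximalIdeal A)) (φ : A →ₗ[k] k)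
    (hφ : ∀ s ∈ (maximalIdeal A).annihilator, s ≠ 0 → φ s ≠ 0) : (Bφ φ).Nondegenerate := by
  have h2 : ∀ v, (∀ w, Bφ φ w v = 0) → v = 0 := by
    intro v hv
    by_contra hne
    obtain ⟨b, hb0, hb⟩ := exists_socle hnil hne
    exact hφ _ hb hb0 (hv b)
  refine ⟨?_, h2⟩
  intro v hv
  apply h2
  intro w
  have := hv w
  rw [Bφ_apply, mul_comm, ← Bφ_apply] at this
  exact this

/-- The data attached to `ξ`, `η`, `φ`. -/
def mkData (hnil : IsNilpotent (maximalIdeal A)) (φ : A →ₗ[k] k)
    (hφ : ∀ s ∈ (maximalIdeal A).annihilator, s ≠ 0 → φ s ≠ 0)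
    (hres : ∀ a : A, ∃ c : k, a - algebraMap k A c ∈ maximalIdeal A) (ξ η : A)
    (hm : maximalIdeal A = Ideal.span {ξ, η}) (u : ℕ)
    (hu : (Ideal.span {ξ, η ^ 2}) ^ (u + 1) = ⊥) : FData k A where
  F j := (FI ξ η j).restrictScalars k
  X := LinearMap.mulLeft k ξ
  Y := LinearMap.mulLeft k η
  B := Bφ φ
  v0 := 1
  U := 2 * u + 2
  nd := Bφ_nondegenerate hnil φ hφ
  sy := Bφ_symm φ
  F0 := by rw [FI_zero]; rfl
  anti j := by
    intro v hv
    exact FI_anti ξ η j hv
  FU := by
    rw [show 2 * u + 2 = 2 * (u + 1) by ring, FI_even, hu]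
    rfl
  hX j v hv := FI_X ξ η hv
  hY j v hv := FI_Y ξ η hv
  comm v := by
    simp only [LinearMap.mulLeft_apply]
    ring
  adjX v w := by
    simp only [LinearMap.mulLeft_apply]
    rw [Bφ_apply, Bφ_apply]
    congr 1
    ring
  adjY v w := by
    simp only [LinearMap.mulLeft_apply]
    rw [Bφ_apply, Bφ_apply]
    congr 1
    ring
  mul a b hab v hv w hw := by
    have h1 := FI_mul ξ η a b (Ideal.mul_mem_mul hv hw)
    have h2 : FI ξ η (a + b) ≤ FI ξ η (2 * (u + 1)) := by
      apply Ideal.span_mono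
      rintro _ ⟨c, d, h, rfl⟩
      exact ⟨c, d, by omega, rfl⟩
    have h3 := h2 h1
    rw [FI_even, hu] at h3
    rw [Bφ_apply, (Submodule.mem_bot A).1 h3, map_zero]
  span j := by
    intro v hv
    rw [Submodule.restrictScalars_mem] at hv
    set T : Submodule k A := Submodule.span k
      (Set.range fun a : Fin (j / 2 + 1) => ((LinearMap.mulLeft k ξ) ^ (a : ℕ))
        (((LinearMap.mulLeft k η) ^ (j - 2 * (a : ℕ))) 1)) ⊔ (FI ξ η (j + 1)).restrictScalars k
      with hT
    have hmT : ∀ c ∈ maximalIdeal A, ∀ z ∈ FI ξ η j, c * z ∈ T := by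
      intro c hc z hz
      refine Submodule.mem_sup_right ?_
      rw [Submodule.restrictScalars_mem]
      rw [hm, Ideal.mem_span_pair] at hc
      obtain ⟨a, b, rfl⟩ := hc
      have e : (a * ξ + b * η) * z = a * (ξ * z) + b * (η * z) := by ring
      rw [e]
      refine Ideal.add_mem _ (Ideal.mul_mem_left _ _ ?_) (Ideal.mul_mem_left _ _ (FI_Y ξ η hz))
      exact FI_anti ξ η (j + 1) (FI_X ξ η hz)
    have hgen : ∀ a b, j ≤ 2 * a + b → ξ ^ a * η ^ b ∈ T := by
      intro a b hab
      by_cases h : j + 1 ≤ 2 * a + b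
      · refine Submodule.mem_sup_right ?_
        rw [Submodule.restrictScalars_mem]
        exact FI_mem ξ η h
      · refine Submodule.mem_sup_left (Submodule.subset_span ⟨⟨a, by omega⟩, ?_⟩)
        simp only [LinearMap.pow_mulLeft, LinearMap.mulLeft_apply]
        rw [show j - 2 * a = b by omega, mul_one]
    refine Submodule.span_induction (p := fun z _ => z ∈ T) ?_ ?_ ?_ ?_ hv
    · rintro _ ⟨a, b, hab, rfl⟩
      exact hgen a b hab
    · exact Submodule.zero_mem _
    · intro x y _ _ hx hy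
      exact Submodule.add_mem _ hx hy
    · intro c z hz hzT
      obtain ⟨c0, hc0⟩ := hres c
      have e : c • z = c0 • z + (c - algebraMap k A c0) * z := by
        rw [smul_eq_mul, Algebra.smul_def]
        ring
      rw [e]
      exact Submodule.add_mem _ (Submodule.smul_mem _ _ hzT) (hmT _ hc0 z hz)

end data

end Pool.Agent.H38.SymDec
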