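import Pool.Agent.H38.SymDec.Numeric

/-!
Numerical part, continued: passage from the fine array to the coarse one.
-/

namespace Pool.Agent.H38.SymDec

/-- The array of sums of two neighbours on diagonals. -/
def DD (n : ℕ → ℕ → ℕ) (E j : ℕ) : ℕ :=
  (if j + 1 ≤ E then n (E - 1 - j) j else 0) + (if 1 ≤ j ∧ j ≤ E then n (E - j) (j - 1) else 0)

/-- The coarse array. -/
def nc (n : ℕ → ℕ → ℕ) (P Q : ℕ) : ℕ :=
  n (2 * P) (2 * Q) + n (2 * P + 1) (2 * Q) + n (2 * P) (2 * Q + 1) + n (2 * P + 1) (2 * Q + 1)

/-- The predicted value of the coarse array in terms of its column sums `h`. -/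
def pred (h : ℕ → ℕ) (P Q : ℕ) : ℕ :=
  ((Finset.range (2 * min P Q + 2)).filter fun c =>
    h (P + Q - c / 2 + 1) ≤ c ∧ c < h (P + Q - c / 2)).card

theorem altern (f : ℕ → ℕ) (N a b : ℕ) (h0 : f 0 = ((Finset.Ico a b).filter fun c => c ≤ 0).card)
    (h1 : ∀ j, 1 ≤ j → j ≤ N → f j + f (j - 1) = ((Finset.Ico a b).filter fun c => c ≤ j).card)
    (j : ℕ) (hj : j ≤ N) :
    f j = ((Finset.Ico a b).filter fun c => c ≤ j ∧ c % 2 = j % 2).card := by
  induction j with
  | zero =>
    rw [h0]
    congr 1
    ext c
    simp only [Finset.mem_filter, Finset.mem_Ico]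
    omega
  | succ j ih =>
    have ih := ih (by omega)
    have h2 := h1 (j + 1) (by omega) hj
    rw [Nat.add_sub_cancel] at h2
    have h3 : ((Finset.Ico a b).filter fun c => c ≤ j + 1).card =
        ((Finset.Ico a b).filter fun c => c ≤ j + 1 ∧ c % 2 = (j + 1) % 2).card +
        ((Finset.Ico a b).filter fun c => c ≤ j ∧ c % 2 = j % 2).card := by
      rw [← Finset.card_union_of_disjoint]
      · congr 1
        ext c
        simp only [Finset.mem_filter, Finset.mem_Ico, Finset.mem_union]
        omega
      · rw [Finset.disjoint_left]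
        intro c hc hc'
        simp only [Finset.mem_filter, Finset.mem_Ico] at hc hc'
        omega
    omega

theorem card_Ico_filter (a b m : ℕ) (p : ℕ → Prop) [DecidablePred p] :
    ((Finset.Ico a b).filter fun c => c ≤ m ∧ p c).card =
      ∑ c ∈ Finset.range (m + 1), if (a ≤ c ∧ c < b ∧ p c) then 1 else 0 := by
  rw [← Finset.card_filter]
  congr 1
  ext c
  simp only [Finset.mem_filter, Finset.mem_Ico, Finset.mem_range]
  constructor
  · rintro ⟨h1, h2, h3⟩
    exact ⟨by omega, by omega, by omega, h3⟩
  · rintro ⟨h1, h2, h3, h4⟩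
    exact ⟨by omega, by omega, h4⟩

section

variable (U : ℕ) (n : ℕ → ℕ → ℕ)

/-- The coarse array is determined by its column sums. -/
theorem coarse (hsym : ∀ r j, n r j = n j r) (hU : ∀ r j, U ≤ r + j → n r j = 0)
    (hle : ∀ E j, S U (DD n) E j ≤ j + 1)
    (hgrow : ∀ E j, S U (DD n) E j < j + 1 → S U (DD n) E (j + 1) ≤ S U (DD n) E j)
    (h : ℕ → ℕ) (hh : ∀ Q, h Q = ∑ P ∈ Finset.range U, nc n P Q) (P Q : ℕ) :
    nc n P Q = pred h P Q := by
  classical
  have hncsym : ∀ P Q, nc n P Q = nc n Q P := by
    intro P Q
    unfold nc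
    rw [hsym (2 * P) (2 * Q), hsym (2 * P + 1) (2 * Q), hsym (2 * P) (2 * Q + 1),
      hsym (2 * P + 1) (2 * Q + 1)]
    omega
  have hpredsym : ∀ P Q, pred h P Q = pred h Q P := by
    intro P Q
    unfold pred
    rw [min_comm, add_comm P Q]
  wlog hPQ : Q ≤ P generalizing P Q with H
  · rw [hncsym, hpredsym]
    exact H Q P (by omega)
  obtain ⟨t, hmono, htop, hform⟩ := numeric U (DD n)
    (by
      intro E hE j
      unfold DD
      split_ifs
      · rw [hU _ _ (by omega), hU _ _ (by omega)]
      · rw [hU _ _ (by omega)]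
      · rw [hU _ _ (by omega)]
      · rfl)
    (by
      intro E j hj
      unfold DD
      rw [if_neg (by omega), if_neg (by omega)])
    (by
      intro E j hj
      unfold DD
      have e1 : (j + 1 ≤ E) ↔ (1 ≤ E - j ∧ E - j ≤ E) := by omega
      have e2 : (1 ≤ j ∧ j ≤ E) ↔ (E - j + 1 ≤ E) := by omega
      have e3 : (if j + 1 ≤ E then n (E - 1 - j) j else 0) =
          (if 1 ≤ E - j ∧ E - j ≤ E then n (E - (E - j)) (E - j - 1) else 0) := by
        by_cases h' : j + 1 ≤ E
        · rw [if_pos h', if_pos (e1.1 h'), hsym]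
          congr 1 <;> omega
        · rw [if_neg h', if_neg (fun h'' => h' (e1.2 h''))]
      have e4 : (if 1 ≤ j ∧ j ≤ E then n (E - j) (j - 1) else 0) =
          (if E - j + 1 ≤ E then n (E - 1 - (E - j)) (E - j) else 0) := by
        by_cases h' : 1 ≤ j ∧ j ≤ E
        · rw [if_pos h', if_pos (e2.1 h'), hsym]
          congr 1
          omega
        · rw [if_neg h', if_neg (fun h'' => h' (e2.2 h''))]
      rw [e3, e4, add_comm])
    hle hgrow
  have hform : ∀ E E1 j, E1 = E + 1 → j ≤ E → DD n E j =
      ((Finset.Ico (t E1) (t E)).filter fun c => c ≤ j ∧ c ≤ E - j).card := by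
    rintro E E1 j rfl hj
    exact hform E j hj
  have hanti : ∀ E k, t (E + k) ≤ t E := by
    intro E k
    induction k with
    | zero => exact le_rfl
    | succ k ih => exact (hmono _).trans ih
  have hanti' : ∀ E E', E ≤ E' → t E' ≤ t E := by
    intro E E' hEE
    obtain ⟨k, rfl⟩ := Nat.exists_eq_add_of_le hEE
    exact hanti E k
  -- the alternating values
  have hf : ∀ N j, j ≤ N → n (2 * N - j) j =
      ((Finset.Ico (t (2 * N + 2)) (t (2 * N + 1))).filter
        fun c => c ≤ j ∧ c % 2 = j % 2).card := by
    intro N j hj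
    refine altern (fun j => n (2 * N - j) j) N _ _ ?_ ?_ j hj
    · have := hform (2 * N + 1) (2 * N + 2) 0 rfl (by omega)
      unfold DD at this
      rw [if_pos (by omega), if_neg (by omega), add_zero] at this
      have e : 2 * N + 1 - 1 - 0 = 2 * N - 0 := by omega
      rw [e] at this
      rw [this]
      congr 1
      ext c
      simp only [Finset.mem_filter, Finset.mem_Ico]
      omega
    · intro j h1 h2
      have := hform (2 * N + 1) (2 * N + 2) j rfl (by omega)
      unfold DD at this
      rw [if_pos (by omega), if_pos (by omega)] at this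
      have e : 2 * N + 1 - 1 - j = 2 * N - j := by omega
      have e' : 2 * N + 1 - j = 2 * N - (j - 1) := by omega
      rw [e, e'] at this
      rw [this]
      congr 1
      ext c
      simp only [Finset.mem_filter, Finset.mem_Ico]
      omega
  -- the set of levels over a degree
  have hlev : ∀ i c, c < h i ↔ (c ≤ 2 * i + 1 ∧ c < t (2 * i + 1 + c)) := by
    intro i
    let Tset : Finset ℕ := (Finset.range (2 * i + 2)).filter fun c => c < t (2 * i + 1 + c)
    have hTmem : ∀ c, c ∈ Tset ↔ (c ≤ 2 * i + 1 ∧ c < t (2 * i + 1 + c)) := by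
      intro c
      simp only [Tset, Finset.mem_filter, Finset.mem_range]
      omega
    have hTdown : ∀ c c', c' < c → c ∈ Tset → c' ∈ Tset := by
      intro c c' hcc hc
      rw [hTmem] at hc ⊢
      have := hanti' (2 * i + 1 + c') (2 * i + 1 + c) (by omega)
      omega
    have hTcard : Tset.card = h i := by
      -- first rewrite `h i` as a sum of row values
      have h1 : h i = ∑ E ∈ Finset.range (U + 1), DD n E (2 * i + 1) := by
        rw [hh]
        have hsplit : ∀ P, nc n P i = (n (2 * P) (2 * i) + n (2 * P + 1) (2 * i)) +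
            (n (2 * P) (2 * i + 1) + n (2 * P + 1) (2 * i + 1)) := by
          intro P; unfold nc; omega
        have hdouble : ∀ (g : ℕ → ℕ) (N : ℕ), ∑ P ∈ Finset.range N, (g (2 * P) + g (2 * P + 1)) =
            ∑ r ∈ Finset.range (2 * N), g r := by
          intro g N
          induction N with
          | zero => simp
          | succ N ih =>
            rw [Finset.sum_range_succ, ih, show 2 * (N + 1) = 2 * N + 1 + 1 by ring,
              Finset.sum_range_succ, Finset.sum_range_succ]
            ring
        have h2 : ∑ P ∈ Finset.range U, nc n P i =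
            ∑ r ∈ Finset.range (2 * U), n r (2 * i) + ∑ r ∈ Finset.range (2 * U), n r (2 * i + 1) := by
          rw [← hdouble, ← hdouble, ← Finset.sum_add_distrib]
          refine Finset.sum_congr rfl fun P _ => ?_
          rw [hsplit]
        rw [h2]
        have h3 : ∀ j N, U ≤ N → ∑ r ∈ Finset.range N, n r j = ∑ r ∈ Finset.range (U - j), n r j := by
          intro j N hN
          symm
          apply Finset.sum_subset
          · intro r hr
            rw [Finset.mem_range] at hr ⊢
            omega
          · intro r _ hr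
            rw [Finset.mem_range] at hr
            exact hU _ _ (by omega)
        rw [h3 (2 * i) (2 * U) (by omega), h3 (2 * i + 1) (2 * U) (by omega)]
        -- split the sum of row values
        have h4 : ∀ E, DD n E (2 * i + 1) = (if 2 * i + 2 ≤ E then n (E - 1 - (2 * i + 1)) (2 * i + 1)
            else 0) + (if 2 * i + 1 ≤ E then n (E - (2 * i + 1)) (2 * i) else 0) := by
          intro E
          unfold DD
          congr 1
          by_cases h' : 2 * i + 1 ≤ E
          · rw [if_pos h', if_pos (by omega)]
            congr 1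
          · rw [if_neg h', if_neg (by omega)]
        rw [Finset.sum_congr rfl fun E _ => h4 E, Finset.sum_add_distrib]
        rw [add_comm (∑ r ∈ Finset.range (U - 2 * i), n r (2 * i))]
        congr 1
        · -- `n r (2i+1)`, `r = E - 2 - 2 i`
          have h5 : ∑ E ∈ Finset.range (U + 1),
              (if 2 * i + 2 ≤ E then n (E - 1 - (2 * i + 1)) (2 * i + 1) else 0) =
              ∑ E ∈ Finset.Ico (2 * i + 2) (U + 1), n (E - 1 - (2 * i + 1)) (2 * i + 1) := by
            rw [← Finset.sum_filter]
            refine Finset.sum_congr ?_ fun _ _ => rfl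
            ext E
            simp only [Finset.mem_filter, Finset.mem_range, Finset.mem_Ico]
            omega
          rw [h5, Finset.sum_Ico_eq_sum_range]
          refine Finset.sum_congr (by congr 1; omega) fun r _ => ?_
          congr 1
          omega
        · have h5 : ∑ E ∈ Finset.range (U + 1),
              (if 2 * i + 1 ≤ E then n (E - (2 * i + 1)) (2 * i) else 0) =
              ∑ E ∈ Finset.Ico (2 * i + 1) (U + 1), n (E - (2 * i + 1)) (2 * i) := by
            rw [← Finset.sum_filter]
            refine Finset.sum_congr ?_ fun _ _ => rfl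
            ext E
            simp only [Finset.mem_filter, Finset.mem_range, Finset.mem_Ico]
            omega
          rw [h5, Finset.sum_Ico_eq_sum_range]
          refine Finset.sum_congr (by congr 1; omega) fun r _ => ?_
          congr 1
          omega
      rw [h1]
      have h6 : ∀ E, DD n E (2 * i + 1) = (Tset.filter fun c => t (E + 1) ≤ c ∧ c < t E ∧
          2 * i + 1 + c ≤ E).card := by
        intro E
        rcases Nat.lt_or_ge E (2 * i + 1) with hE | hE
        · rw [show (Tset.filter fun c => t (E + 1) ≤ c ∧ c < t E ∧ 2 * i + 1 + c ≤ E) = ∅ by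
            rw [Finset.filter_eq_empty_iff]; intro c _; omega]
          unfold DD
          rw [if_neg (by omega), if_neg (by omega)]
          rfl
        · rw [hform E (E + 1) (2 * i + 1) rfl hE]
          congr 1
          ext c
          rw [Finset.mem_filter, Finset.mem_filter, hTmem, Finset.mem_Ico]
          constructor
          · rintro ⟨⟨h7, h8⟩, h9, h10⟩
            have := hanti' (2 * i + 1 + c) E (by omega)
            exact ⟨⟨h9, by omega⟩, h7, h8, by omega⟩
          · rintro ⟨⟨h7, _⟩, h8, h9, h10⟩
            exact ⟨⟨h8, h9⟩, h7, by omega⟩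
      rw [Finset.sum_congr rfl fun E _ => h6 E]
      have h7 : Tset = (Finset.range (U + 1)).biUnion
          (fun E => Tset.filter fun c => t (E + 1) ≤ c ∧ c < t E ∧ 2 * i + 1 + c ≤ E) := by
        ext c
        rw [Finset.mem_biUnion]
        constructor
        · intro hc
          have hc' := (hTmem c).1 hc
          -- the largest `E` with `c < t E`
          have hexE : ∃ E, 2 * i + 1 + c ≤ E ∧ c < t E ∧ t (E + 1) ≤ c := by
            by_contra hcon
            push Not at hcon
            have h8 : ∀ k, c < t (2 * i + 1 + c + k) := by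
              intro k
              induction k with
              | zero => exact hc'.2
              | succ k ih => exact hcon (2 * i + 1 + c + k) (by omega) ih
            have h9 := h8 (U + 1)
            rw [htop _ (by omega)] at h9
            omega
          obtain ⟨E, hE1, hE2, hE3⟩ := hexE
          refine ⟨E, ?_, ?_⟩
          · rw [Finset.mem_range]
            by_contra hcon
            rw [htop E (by omega)] at hE2
            omega
          · rw [Finset.mem_filter]
            exact ⟨hc, hE3, hE2, hE1⟩
        · rintro ⟨E, _, hc⟩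
          rw [Finset.mem_filter] at hc
          exact hc.1
      conv_lhs => rw [h7]
      apply Finset.card_biUnion
      intro E _ E' _ hEE
      rw [Function.onFun, Finset.disjoint_left]
      intro c hc hc'
      rw [Finset.mem_filter] at hc hc'
      rcases Nat.lt_or_gt_of_ne hEE with hlt | hlt
      · have := hanti' (E + 1) E' (by omega)
        omega
      · have := hanti' (E' + 1) E (by omega)
        omega
    intro c
    rw [← hTmem]
    constructor
    · intro hc
      by_contra hcon
      have hsub : Tset ⊆ Finset.range c := by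
        intro c' hc'
        rw [Finset.mem_range]
        by_contra h'
        rcases Nat.lt_or_ge c c' with h'' | h''
        · exact hcon (hTdown c' c h'' hc')
        · have : c' = c := by omega
          exact hcon (this ▸ hc')
      have := Finset.card_le_card hsub
      rw [Finset.card_range, hTcard] at this
      omega
    · intro hc
      have hsub : Finset.range (c + 1) ⊆ Tset := by
        intro c' hc'
        rw [Finset.mem_range] at hc'
        rcases Nat.lt_or_ge c' c with h'' | h''
        · exact hTdown c c' h'' hc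
        · have : c' = c := by omega
          exact this ▸ hc
      have := Finset.card_le_card hsub
      rw [Finset.card_range, hTcard] at this
      omega
  -- assemble
  set M := P + Q with hM
  have hA : n (2 * P) (2 * Q) = ∑ c ∈ Finset.range (2 * Q + 1 + 1),
      if (t (2 * M + 2) ≤ c ∧ c < t (2 * M + 1) ∧ c % 2 = 0) then 1 else 0 := by
    have := hf M (2 * Q) (by omega)
    rw [show 2 * M - 2 * Q = 2 * P by omega] at this
    rw [this, ← card_Ico_filter]
    congr 1
    ext c
    simp only [Finset.mem_filter, Finset.mem_Ico]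
    omega
  have hC : n (2 * P + 1) (2 * Q + 1) = ∑ c ∈ Finset.range (2 * Q + 1 + 1),
      if (t (2 * M + 4) ≤ c ∧ c < t (2 * M + 3) ∧ c % 2 = 1) then 1 else 0 := by
    have := hf (M + 1) (2 * Q + 1) (by omega)
    rw [show 2 * (M + 1) - (2 * Q + 1) = 2 * P + 1 by omega,
      show 2 * (M + 1) + 2 = 2 * M + 4 by ring, show 2 * (M + 1) + 1 = 2 * M + 3 by ring] at this
    rw [this, ← card_Ico_filter]
    congr 1
    ext c
    simp only [Finset.mem_filter, Finset.mem_Ico]
    omega
  have hB : n (2 * P) (2 * Q + 1) + n (2 * P + 1) (2 * Q) = ∑ c ∈ Finset.range (2 * Q + 1 + 1),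
      if (t (2 * M + 3) ≤ c ∧ c < t (2 * M + 2) ∧ c ≤ 2 * Q + 1) then 1 else 0 := by
    have := hform (2 * M + 2) (2 * M + 3) (2 * Q + 1) rfl (by omega)
    unfold DD at this
    rw [if_pos (by omega), if_pos (by omega)] at this
    rw [show 2 * M + 2 - 1 - (2 * Q + 1) = 2 * P by omega,
      show 2 * M + 2 - (2 * Q + 1) = 2 * P + 1 by omega, show 2 * Q + 1 - 1 = 2 * Q by omega] at this
    rw [this, ← card_Ico_filter]
    congr 1
    ext c
    simp only [Finset.mem_filter, Finset.mem_Ico]
    omega
  have hD : pred h P Q = ∑ c ∈ Finset.range (2 * Q + 1 + 1),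
      ((if (t (2 * M + 2) ≤ c ∧ c < t (2 * M + 1) ∧ c % 2 = 0) then 1 else 0) +
      (if (t (2 * M + 3) ≤ c ∧ c < t (2 * M + 2) ∧ c ≤ 2 * Q + 1) then 1 else 0) +
      (if (t (2 * M + 4) ≤ c ∧ c < t (2 * M + 3) ∧ c % 2 = 1) then 1 else 0)) := by
    unfold pred
    rw [Finset.card_filter, show 2 * min P Q + 2 = 2 * Q + 1 + 1 by omega]
    refine Finset.sum_congr rfl fun c hc => ?_
    rw [Finset.mem_range] at hc
    have e1 := hlev (P + Q - c / 2 + 1) c
    have e2 := hlev (P + Q - c / 2) c
    have m1 := hmono (2 * M + 1)
    have m2 := hmono (2 * M + 2)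
    have m3 := hmono (2 * M + 3)
    rw [show 2 * M + 1 + 1 = 2 * M + 2 by ring] at m1
    rw [show 2 * M + 2 + 1 = 2 * M + 3 by ring] at m2
    rw [show 2 * M + 3 + 1 = 2 * M + 4 by ring] at m3
    rcases Nat.even_or_odd' c with ⟨g, hg | hg⟩
    · rw [show 2 * (P + Q - c / 2 + 1) + 1 + c = 2 * M + 3 by omega] at e1
      rw [show 2 * (P + Q - c / 2) + 1 + c = 2 * M + 1 by omega] at e2
      have e3 : (h (P + Q - c / 2 + 1) ≤ c ∧ c < h (P + Q - c / 2)) ↔
          (t (2 * M + 3) ≤ c ∧ c < t (2 * M + 1)) := by
        rw [e2, ← not_lt, e1]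
        omega
      rw [if_congr e3 rfl rfl]
      split_ifs <;> omega
    · rw [show 2 * (P + Q - c / 2 + 1) + 1 + c = 2 * M + 4 by omega] at e1
      rw [show 2 * (P + Q - c / 2) + 1 + c = 2 * M + 2 by omega] at e2
      have e3 : (h (P + Q - c / 2 + 1) ≤ c ∧ c < h (P + Q - c / 2)) ↔
          (t (2 * M + 4) ≤ c ∧ c < t (2 * M + 2)) := by
        rw [e2, ← not_lt, e1]
        omega
      rw [if_congr e3 rfl rfl]
      split_ifs <;> omega
  rw [hD, Finset.sum_add_distrib, Finset.sum_add_distrib, ← hA, ← hB, ← hC]
  unfold nc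
  omega

end

end Pool.Agent.H38.SymDec
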