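import Mathlib

/-!
Definitions used in the statements: Artinian Gorenstein local rings, the Hilbert function of the
associated graded ring of an ideal and its symmetric decomposition.
-/

namespace Pool.Agent.H38.SymDec

/-- A commutative ring is Artinian Gorenstein local: it is Artinian and local and its socle (the
annihilator of the maximal ideal) is a simple module. -/
def IsAG (A : Type*) [CommRing A] : Prop :=
  IsArtinianRing A ∧ ∃ _ : IsLocalRing A,
    IsSimpleModule A ↥(Submodule.annihilator (IsLocalRing.maximalIdeal A))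

/-- `A` is an Artinian Gorenstein local ring which is a quotient of the ring of formal power
series in two variables over `k`. -/
def IsAGQuot (k A : Type*) [Field k] [CommRing A] : Prop :=
  IsAG A ∧ ∃ π : MvPowerSeries (Fin 2) k →+* A, Function.Surjective π

variable {A : Type*} [CommRing A]

/-- `u` is the end degree of `I`. -/
def EndDeg (I : Ideal A) (u : ℕ) : Prop := I ^ u ≠ ⊥ ∧ I ^ (u + 1) = ⊥

/-- The length of the module `N / K` for submodules `K ≤ N` of a module. -/
noncomputable def lenQ {M : Type*} [AddCommGroup M] [Module A M] (K N : Submodule A M) : ℕ∞ :=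
  Module.length A (↥N ⧸ K.submoduleOf N)

/-- The Hilbert function `i ↦ length (I ^ i / I ^ (i + 1))` of the associated graded ring. -/
noncomputable def HF (I : Ideal A) (i : ℕ) : ℕ∞ := lenQ (I ^ (i + 1)) (I ^ i)

/-- The ideal `(0 : I ^ (u + 1 - a - i)) ∩ I ^ i + I ^ (i + 1)`. If `u + 1 ≤ a + i` the truncated
exponent is `0` and `(0 : I ^ 0) = (0 : A) = 0`. -/
def Cnum (I : Ideal A) (u a i : ℕ) : Ideal A :=
  ((I ^ (u + 1 - a - i)).annihilator ⊓ I ^ i) ⊔ I ^ (i + 1)

/-- The image of the submodule `N` of `M` in `M / K`. -/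
def img {M : Type*} [AddCommGroup M] [Module A M] (K N : Submodule A M) : Submodule A (M ⧸ K) :=
  N.map K.mkQ

/-- The submodule `C(a)_i = ((0 : I ^ (u + 1 - a - i)) ∩ I ^ i + I ^ (i + 1)) / I ^ (i + 1)` of
`I ^ i / I ^ (i + 1)`, as a submodule of `A / I ^ (i + 1)`. -/
def C (I : Ideal A) (u a i : ℕ) : Submodule A (A ⧸ I ^ (i + 1)) :=
  img (I ^ (i + 1)) (Cnum I u a i)

/-- The value `H(a)_i = length (C(a)_i / C(a + 1)_i)` of the symmetric decomposition. -/
noncomputable def Hdec (I : Ideal A) (u a i : ℕ) : ℕ∞ := lenQ (C I u (a + 1) i) (C I u a i)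

/-- The closed form for `H(a)_i` in terms of the Hilbert function `h`, for `h 0 = 2`:
the number of `c < 2 min (i, u - a - i) + 2` with
`h (u - a - ⌊c / 2⌋ + 1) ≤ c < h (u - a - ⌊c / 2⌋)` if `a + i ≤ u`, and `0` otherwise. -/
def formula (h : ℕ → ℕ) (u a i : ℕ) : ℕ :=
  if a + i ≤ u then
    ((Finset.range (2 * min i (u - a - i) + 2)).filter fun c =>
      h (u - a - c / 2 + 1) ≤ c ∧ c < h (u - a - c / 2)).card
  else 0

end Pool.Agent.H38.SymDec
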