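import Pool.Agent.H38.SymDec.Gens
import Pool.Agent.H38.SymDec.Defs

/-!
The symmetric decomposition is determined by the Hilbert function.
-/

open Module IsLocalRing

namespace Pool.Agent.H38.SymDec

section len

variable {A M : Type*} [CommRing A] [AddCommGroup M] [Module A M]

theorem length_map_mkQ {K N : Submodule A M} (h : K ≤ N) :
    Module.length A ↥(N.map K.mkQ) + Module.length A K = Module.length A N := by
  let f : K →ₗ[A] N := Submodule.inclusion h
  let g : N →ₗ[A] ↥(N.map K.mkQ) := K.mkQ.submoduleMap N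
  have hf : Function.Injective f := Submodule.inclusion_injective h
  have hg : Function.Surjective g := K.mkQ.submoduleMap_surjective N
  have hex : Function.Exact f g := by
    intro x
    constructor
    · intro hx
      have h1 : K.mkQ (x : M) = 0 := congrArg Subtype.val hx
      rw [Submodule.mkQ_apply, Submodule.Quotient.mk_eq_zero] at h1
      exact ⟨⟨x, h1⟩, Subtype.ext rfl⟩
    · rintro ⟨y, rfl⟩
      apply Subtype.ext
      change K.mkQ (y : M) = 0
      rw [Submodule.mkQ_apply, Submodule.Quotient.mk_eq_zero]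
      exact y.2
  rw [Module.length_eq_add_of_exact f g hf hg hex, add_comm]

theorem length_quot (N : Submodule A M) :
    Module.length A (M ⧸ N) + Module.length A N = Module.length A M := by
  rw [Module.length_eq_add_of_exact N.subtype N.mkQ N.injective_subtype N.mkQ_surjective
    (LinearMap.exact_subtype_mkQ N), add_comm]

theorem length_submoduleOf {K N : Submodule A M} (h : K ≤ N) :
    Module.length A ↥(K.submoduleOf N) = Module.length A K :=
  (Submodule.submoduleOfEquivOfLe h).length_eq

theorem lenQ_add {K N : Submodule A M} (h : K ≤ N) :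
    lenQ K N + Module.length A K = Module.length A N := by
  unfold lenQ
  rw [← length_submoduleOf h, length_quot]

theorem HF_add (I : Ideal A) (i : ℕ) :
    HF I i + Module.length A ↥(I ^ (i + 1)) = Module.length A ↥(I ^ i) :=
  lenQ_add (Ideal.pow_le_pow_right (Nat.le_succ i))

theorem Cnum_le (I : Ideal A) (u a i : ℕ) : Cnum I u a i ≤ I ^ i :=
  sup_le inf_le_right (Ideal.pow_le_pow_right (Nat.le_succ i))

theorem le_Cnum (I : Ideal A) (u a i : ℕ) : I ^ (i + 1) ≤ Cnum I u a i := le_sup_right

theorem Cnum_anti (I : Ideal A) (u a i : ℕ) : Cnum I u (a + 1) i ≤ Cnum I u a i := by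
  unfold Cnum
  refine sup_le_sup_right (inf_le_inf_right _ (Submodule.annihilator_mono ?_)) _
  exact Ideal.pow_le_pow_right (by omega)

theorem C_add (I : Ideal A) (u a i : ℕ) :
    Module.length A ↥(C I u a i) + Module.length A ↥(I ^ (i + 1)) =
      Module.length A ↥(Cnum I u a i) :=
  length_map_mkQ (le_Cnum I u a i)

theorem C_anti (I : Ideal A) (u a i : ℕ) : C I u (a + 1) i ≤ C I u a i :=
  Submodule.map_mono (Cnum_anti I u a i)

theorem Hdec_add (I : Ideal A) (u a i : ℕ) :
    Hdec I u a i + Module.length A ↥(C I u (a + 1) i) = Module.length A ↥(C I u a i) :=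
  lenQ_add (C_anti I u a i)

theorem Hdec_Cnum (I : Ideal A) (u a i : ℕ) :
    Hdec I u a i + Module.length A ↥(Cnum I u (a + 1) i) = Module.length A ↥(Cnum I u a i) := by
  rw [← C_add, ← C_add, ← Hdec_add I u a i, add_assoc]

end len

section main

variable {k A : Type*} [Field k] [CommRing A] [Algebra k A] [IsLocalRing A]

theorem Hdec_formula (hart : IsArtinianRing A)
    (hs : IsSimpleModule A ↥(Submodule.annihilator (maximalIdeal A)))
    (hres : ∀ a : A, ∃ c : k, a - algebraMap k A c ∈ maximalIdeal A) (x y : A)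
    (hm : maximalIdeal A = Ideal.span {x, y}) (I : Ideal A) (u : ℕ) (hu : I ^ (u + 1) = ⊥)
    (h0 : HF I 0 = 2) (h : ℕ → ℕ) (hh : ∀ i, HF I i = h i) (a i : ℕ) :
    Hdec I u a i = formula h u a i := by
  have hfin : FiniteDimensional k A := finite_of_artinian hres
  have hnil : IsNilpotent (maximalIdeal A) := by
    rw [← jacobson_eq_maximalIdeal (⊥ : Ideal A) bot_ne_top]
    exact IsArtinianRing.isNilpotent_jacobson_bot
  have hlen : ∀ N : Ideal A, Module.length A ↥N = (finrank k (N.restrictScalars k) : ℕ∞) := by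
    intro N
    exact length_eq_finrank hres ↥(N.restrictScalars k)
  have hlenA : Module.length A A = (finrank k A : ℕ∞) := length_eq_finrank hres A
  -- the codimension of `I`
  have hI2 : 2 + finrank k (I.restrictScalars k) = finrank k A := by
    have h1 := HF_add I 0
    rw [h0, hlen, hlen, pow_zero, Nat.zero_add, pow_one, Ideal.one_eq_top,
      Submodule.restrictScalars_top, finrank_top] at h1
    exact_mod_cast h1
  have hmax1 : 1 + finrank k ((maximalIdeal A).restrictScalars k) = finrank k A := by
    have h1 := length_quot (maximalIdeal A)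
    have h2 : IsSimpleModule A (A ⧸ maximalIdeal A) :=
      isSimpleModule_iff_quot_maximal.2 ⟨maximalIdeal A, inferInstance, ⟨LinearEquiv.refl _ _⟩⟩
    rw [Module.length_eq_one, hlen, hlenA] at h1
    exact_mod_cast h1
  have hIm : I ≤ maximalIdeal A := by
    apply le_maximalIdeal
    rintro rfl
    rw [Submodule.restrictScalars_top, finrank_top] at hI2
    omega
  obtain ⟨ξ, η, hmξ, hIξ⟩ := exists_gens hres x y hm I hIm (by omega)
  obtain ⟨φ, hφ⟩ := exists_functional hres hs
  let D : FData k A := mkData hnil φ hφ hres ξ η hmξ u (by rw [← hIξ]; exact hu)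
  have hF : ∀ Q, D.F (2 * Q) = (I ^ Q).restrictScalars k := by
    intro Q
    change (FI ξ η (2 * Q)).restrictScalars k = _
    rw [FI_even, ← hIξ]
  have hF2 : ∀ Q, D.F (2 * Q + 2) = (I ^ (Q + 1)).restrictScalars k := fun Q => by
    rw [show 2 * Q + 2 = 2 * (Q + 1) by ring, hF]
  have hB : D.B = Bφ φ := rfl
  have hWc : ∀ P Q, D.Wc P Q =
      ((((I ^ P).annihilator ⊓ I ^ Q) ⊔ I ^ (Q + 1) : Ideal A)).restrictScalars k := by
    intro P Q
    unfold FData.Wc
    rw [hF, hF, hF2, hB, orthogonal_eq hnil φ hφ, Submodule.restrictScalars_sup,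
      inf_comm ((I ^ P).annihilator)]
    rfl
  have hh' : ∀ Q, finrank k (D.F (2 * Q + 2)) + h Q = finrank k (D.F (2 * Q)) := by
    intro Q
    have h1 := HF_add I Q
    rw [hh, hlen, hlen, ← hF2, ← hF] at h1
    have h2 : h Q + finrank k (D.F (2 * Q + 2)) = finrank k (D.F (2 * Q)) := by exact_mod_cast h1
    omega
  have h1 := Hdec_Cnum I u a i
  rw [hlen, hlen] at h1
  by_cases hai : a + i ≤ u
  · have h2 := D.main h hh' (u - a - i) i
    rw [hWc, hWc] at h2
    have e1 : Cnum I u (a + 1) i =
        (((I ^ (u - a - i)).annihilator ⊓ I ^ i) ⊔ I ^ (i + 1) : Ideal A) := by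
      unfold Cnum
      rw [show u + 1 - (a + 1) - i = u - a - i by omega]
    have e2 : Cnum I u a i =
        (((I ^ (u - a - i + 1)).annihilator ⊓ I ^ i) ⊔ I ^ (i + 1) : Ideal A) := by
      unfold Cnum
      rw [show u + 1 - a - i = u - a - i + 1 by omega]
    rw [← e1, ← e2] at h2
    rw [← h2, Nat.cast_add, add_comm] at h1
    have h3 := ENat.add_right_injective_of_ne_top (ENat.natCast_ne_top _) h1
    rw [h3]
    unfold formula pred
    rw [if_pos hai, show u - a - i + i = u - a by omega, min_comm i]
  · have e : Cnum I u (a + 1) i = Cnum I u a i := by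
      unfold Cnum
      rw [show u + 1 - (a + 1) - i = 0 by omega, show u + 1 - a - i = 0 by omega]
    rw [e] at h1
    unfold formula
    rw [if_neg hai]
    have h3 : Hdec I u a i + (finrank k ((Cnum I u a i).restrictScalars k) : ℕ∞) =
        0 + (finrank k ((Cnum I u a i).restrictScalars k) : ℕ∞) := by rw [h1, zero_add]
    have h4 := ENat.add_left_injective_of_ne_top (ENat.natCast_ne_top _) h3
    rw [h4]
    rfl

end main

section powerSeries

variable {k : Type*} [Field k]

/-- A power series in two variables without constant term is in the ideal of the variables. -/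
theorem exists_decomp (f : MvPowerSeries (Fin 2) k) (hf : MvPowerSeries.constantCoeff f = 0) :
    ∃ g h : MvPowerSeries (Fin 2) k, f = g * MvPowerSeries.X 0 + h * MvPowerSeries.X 1 := by
  classical
  let f1 : MvPowerSeries (Fin 2) k := fun m => if m 0 = 0 then 0 else MvPowerSeries.coeff m f
  have hc : ∀ m, MvPowerSeries.coeff m f1 = if m 0 = 0 then 0 else MvPowerSeries.coeff m f :=
    fun m => rfl
  have h0 : (MvPowerSeries.X 0 : MvPowerSeries (Fin 2) k) ∣ f1 := by
    rw [MvPowerSeries.X_dvd_iff]
    intro m hm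
    rw [hc, if_pos hm]
  have h1 : (MvPowerSeries.X 1 : MvPowerSeries (Fin 2) k) ∣ f - f1 := by
    rw [MvPowerSeries.X_dvd_iff]
    intro m hm
    rw [map_sub, hc]
    split_ifs with h
    · have : m = 0 := by
        ext i
        fin_cases i
        · exact h
        · exact hm
      rw [this, MvPowerSeries.coeff_zero_eq_constantCoeff_apply, hf, sub_zero]
    · rw [sub_self]
  obtain ⟨g, hg⟩ := h0
  obtain ⟨h, hh⟩ := h1
  refine ⟨g, h, ?_⟩
  rw [mul_comm g, mul_comm h, ← hg, ← hh]
  ring

variable {A : Type*} [CommRing A] [IsLocalRing A] (π : MvPowerSeries (Fin 2) k →+* A)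
  (hπ : Function.Surjective π)

include hπ

theorem mk_mem_maximalIdeal (f : MvPowerSeries (Fin 2) k)
    (hf : MvPowerSeries.constantCoeff f = 0) : π f ∈ maximalIdeal A := by
  rw [mem_maximalIdeal, mem_nonunits_iff]
  intro hu
  obtain ⟨b, hb⟩ := hu.exists_right_inv
  obtain ⟨g, rfl⟩ := hπ b
  have hb2 : π (f * g - 1) = 0 := by rw [map_sub, map_mul, hb, map_one, sub_self]
  have h1 : IsUnit (f * g - 1) := by
    rw [MvPowerSeries.isUnit_iff_constantCoeff, map_sub, map_mul, hf, zero_mul, map_one, zero_sub]
    exact isUnit_one.neg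
  have h2 := h1.map π
  rw [hb2] at h2
  exact not_isUnit_zero h2

theorem max_powerSeries : maximalIdeal A =
    Ideal.span {π (MvPowerSeries.X 0), π (MvPowerSeries.X 1)} := by
  apply le_antisymm
  · intro a ha
    obtain ⟨f, rfl⟩ := hπ a
    have hf : MvPowerSeries.constantCoeff f = 0 := by
      by_contra hne
      have : IsUnit f := by
        rw [MvPowerSeries.isUnit_iff_constantCoeff]
        exact IsUnit.mk0 _ hne
      exact (mem_maximalIdeal _).1 ha (this.map π)
    obtain ⟨g, h, rfl⟩ := exists_decomp f hf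
    rw [map_add, map_mul, map_mul]
    exact Ideal.add_mem _ (Ideal.mul_mem_left _ _ (Ideal.subset_span (by simp)))
      (Ideal.mul_mem_left _ _ (Ideal.subset_span (by simp)))
  · rw [Ideal.span_le]
    rintro z hz
    rcases hz with rfl | hz
    · exact mk_mem_maximalIdeal π hπ _ (by simp)
    · rw [Set.mem_singleton_iff] at hz
      subst hz
      exact mk_mem_maximalIdeal π hπ _ (by simp)

end powerSeries

section final

variable {k A : Type*} [Field k] [CommRing A]

/-- The symmetric decomposition is given by the closed formula. -/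
theorem Hdec_eq_formula (hA : IsAG A) (π : MvPowerSeries (Fin 2) k →+* A)
    (hπ : Function.Surjective π) (I : Ideal A) (u : ℕ)
    (hu : I ^ (u + 1) = ⊥) (h0 : HF I 0 = 2) (h : ℕ → ℕ) (hh : ∀ i, HF I i = h i) (a i : ℕ) :
    Hdec I u a i = formula h u a i := by
  obtain ⟨hart, hloc, hs⟩ := hA
  let _ : Algebra k A := (π.comp (MvPowerSeries.C (σ := Fin 2) (R := k))).toAlgebra
  have hres : ∀ a : A, ∃ c : k, a - algebraMap k A c ∈ maximalIdeal A := by
    intro a
    obtain ⟨f, rfl⟩ := hπ a
    refine ⟨MvPowerSeries.constantCoeff f, ?_⟩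
    have e : algebraMap k A (MvPowerSeries.constantCoeff f) =
        π (MvPowerSeries.C (MvPowerSeries.constantCoeff f)) := rfl
    rw [e, ← map_sub]
    apply mk_mem_maximalIdeal π hπ
    simp
  exact Hdec_formula hart hs hres _ _ (max_powerSeries π hπ) I u hu h0 h hh a i

theorem end_le {A A' : Type*} [CommRing A] [CommRing A'] (I : Ideal A) (I' : Ideal A')
    (hH : ∀ i, HF I i = HF I' i) (u u' : ℕ) (h1 : I ^ u ≠ ⊥) (h2 : I ^ (u + 1) = ⊥)
    (h3 : I' ^ (u' + 1) = ⊥) : u ≤ u' := by
  by_contra hlt
  have h4 : I' ^ u = ⊥ := by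
    rw [eq_bot_iff, ← h3]
    exact Ideal.pow_le_pow_right (by omega)
  have h5 := HF_add I' u
  rw [h4, Module.length_bot] at h5
  have h6 := HF_add I u
  rw [h2, Module.length_bot, hH u, add_zero] at h6
  have h7 : Module.length A ↥(I ^ u) = 0 := by
    rw [← h6]
    exact (add_eq_zero.1 h5).1
  rw [Module.length_eq_zero_iff, Submodule.subsingleton_iff_eq_bot] at h7
  exact h1 h7

end final

end Pool.Agent.H38.SymDec
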