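import Pool.Agent.H38.SymDec.Algebra

/-!
Choice of generators and comparison of lengths with dimensions.
-/

open Module IsLocalRing

namespace Pool.Agent.H38.SymDec

section gens

variable {k A : Type*} [Field k] [CommRing A] [Algebra k A] [IsLocalRing A] [FiniteDimensional k A]

theorem exists_gens (hres : ∀ a : A, ∃ c : k, a - algebraMap k A c ∈ maximalIdeal A) (x y : A)
    (hm : maximalIdeal A = Ideal.span {x, y}) (I : Ideal A) (hIm : I ≤ maximalIdeal A)
    (hI : finrank k (I.restrictScalars k) + 1 = finrank k ((maximalIdeal A).restrictScalars k)) :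
    ∃ ξ η : A, maximalIdeal A = Ideal.span {ξ, η} ∧ I = Ideal.span {ξ, η ^ 2} := by
  have hne : ¬ (x ∈ I ∧ y ∈ I) := by
    rintro ⟨hx, hy⟩
    have : maximalIdeal A ≤ I := by
      rw [hm, Ideal.span_le]
      rintro z hz
      rcases hz with rfl | hz
      · exact hx
      · rw [Set.mem_singleton_iff] at hz
        subst hz
        exact hy
    have h2 : I = maximalIdeal A := le_antisymm hIm this
    rw [h2] at hI
    omega
  obtain ⟨η, ζ, hηI, hm'⟩ : ∃ η ζ : A, η ∉ I ∧ maximalIdeal A = Ideal.span {ζ, η} := by
    by_cases hx : x ∈ I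
    · exact ⟨y, x, fun hy => hne ⟨hx, hy⟩, hm⟩
    · refine ⟨x, y, hx, ?_⟩
      rw [hm, Set.pair_comm]
  have hηm : η ∈ maximalIdeal A := by
    rw [hm']
    exact Ideal.subset_span (by simp)
  have hζm : ζ ∈ maximalIdeal A := by
    rw [hm']
    exact Ideal.subset_span (by simp)
  -- the maximal ideal is `I + k η`
  have hsum : I.restrictScalars k ⊔ Submodule.span k {η} = (maximalIdeal A).restrictScalars k := by
    have hle : I.restrictScalars k ⊔ Submodule.span k {η} ≤ (maximalIdeal A).restrictScalars k := by
      refine sup_le (fun z hz => hIm hz) ?_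
      rw [Submodule.span_le, Set.singleton_subset_iff]
      exact hηm
    have hlt : I.restrictScalars k < I.restrictScalars k ⊔ Submodule.span k {η} := by
      refine lt_of_le_of_ne le_sup_left fun heq => hηI ?_
      have : η ∈ I.restrictScalars k ⊔ Submodule.span k {η} :=
        Submodule.mem_sup_right (Submodule.mem_span_singleton_self η)
      rw [← heq] at this
      exact this
    have h1 := Submodule.finrank_lt_finrank_of_lt hlt
    exact Submodule.eq_of_le_of_finrank_le hle (by omega)
  have hdec : ∀ z ∈ maximalIdeal A, ∃ i ∈ I, ∃ c : k, z = i + c • η := by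
    intro z hz
    have : z ∈ I.restrictScalars k ⊔ Submodule.span k {η} := by
      rw [hsum]; exact hz
    obtain ⟨i, hi, w, hw, rfl⟩ := Submodule.mem_sup.1 this
    obtain ⟨c, rfl⟩ := Submodule.mem_span_singleton.1 hw
    exact ⟨i, hi, c, rfl⟩
  have hunit : ∀ (c : k) , c • η ∈ I → c = 0 := by
    intro c hc
    by_contra hc0
    refine hηI ?_
    have := (I.restrictScalars k).smul_mem c⁻¹ (show c • η ∈ I.restrictScalars k from hc)
    rw [smul_smul, inv_mul_cancel₀ hc0, one_smul] at this
    exact this
  -- `η ^ 2` is in `I`
  have hη2 : η ^ 2 ∈ I := by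
    obtain ⟨i, hi, c, hc⟩ := hdec (η ^ 2) (by
      rw [sq]
      exact Ideal.mul_mem_left _ _ hηm)
    by_cases hc0 : c = 0
    · rw [hc, hc0, zero_smul, add_zero]
      exact hi
    · exfalso
      refine hηI ?_
      have hu : IsUnit (η - algebraMap k A c) := by
        by_contra hnu
        have h1 : η - algebraMap k A c ∈ maximalIdeal A := (mem_maximalIdeal _).2 hnu
        have h2 : algebraMap k A c ∈ maximalIdeal A := by
          have := Ideal.sub_mem _ hηm h1
          rwa [sub_sub_cancel] at this
        have h3 : IsUnit (algebraMap k A c) := (IsUnit.mk0 c hc0).map (algebraMap k A)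
        exact (mem_maximalIdeal _).1 h2 h3
      have h4 : (η - algebraMap k A c) * η ∈ I := by
        have e : (η - algebraMap k A c) * η = i := by
          rw [sub_mul, ← Algebra.smul_def, ← sq, hc]
          ring
        rw [e]
        exact hi
      exact (Ideal.unit_mul_mem_iff_mem I hu).1 h4
  obtain ⟨ξ, hξ, c, hc⟩ := hdec ζ hζm
  have hmax : maximalIdeal A = Ideal.span {ξ, η} := by
    rw [hm']
    apply le_antisymm
    · rw [Ideal.span_le]
      rintro z hz
      rcases hz with rfl | hz
      · rw [hc]
        refine Ideal.add_mem _ (Ideal.subset_span (by simp)) ?_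
        rw [Algebra.smul_def]
        exact Ideal.mul_mem_left _ _ (Ideal.subset_span (by simp))
      · rw [Set.mem_singleton_iff] at hz
        subst hz
        exact Ideal.subset_span (by simp)
    · rw [Ideal.span_le]
      rintro z hz
      rcases hz with rfl | hz
      · have e : z = ζ - algebraMap k A c * η := by
          rw [hc, Algebra.smul_def]
          ring
        rw [e]
        exact Ideal.sub_mem _ (Ideal.subset_span (by simp))
          (Ideal.mul_mem_left _ _ (Ideal.subset_span (by simp)))
      · rw [Set.mem_singleton_iff] at hz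
        subst hz
        exact Ideal.subset_span (by simp)
  refine ⟨ξ, η, hmax, ?_⟩
  apply le_antisymm
  · intro z hz
    have hzm := hIm hz
    rw [hmax, Ideal.mem_span_pair] at hzm
    obtain ⟨α, β, hαβ⟩ := hzm
    obtain ⟨c, hcβ⟩ := hres β
    rw [hmax, Ideal.mem_span_pair] at hcβ
    obtain ⟨γ, δ, hγδ⟩ := hcβ
    have e : z = (α + γ * η) * ξ + δ * η ^ 2 + c • η := by
      rw [Algebra.smul_def, ← hαβ]
      have : β = γ * ξ + δ * η + algebraMap k A c := by rw [hγδ]; ring
      rw [this]
      ring
    have hcI : c • η ∈ I := by
      have e2 : c • η = z - ((α + γ * η) * ξ + δ * η ^ 2) := by rw [e]; ring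
      rw [e2]
      exact Ideal.sub_mem _ hz (Ideal.add_mem _ (Ideal.mul_mem_left _ _ hξ)
        (Ideal.mul_mem_left _ _ hη2))
    have hc0 := hunit c hcI
    rw [e, hc0, zero_smul, add_zero]
    exact Ideal.add_mem _ (Ideal.mul_mem_left _ _ (Ideal.subset_span (by simp)))
      (Ideal.mul_mem_left _ _ (Ideal.subset_span (by simp)))
  · rw [Ideal.span_le]
    rintro z hz
    rcases hz with rfl | hz
    · exact hξ
    · rw [Set.mem_singleton_iff] at hz
      subst hz
      exact hη2

end gens

section length

variable {k A : Type*} [Field k] [CommRing A] [Algebra k A] [IsLocalRing A]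

theorem length_eq_length (hres : ∀ a : A, ∃ c : k, a - algebraMap k A c ∈ maximalIdeal A)
    (M : Type*) [AddCommGroup M] [Module k M] [Module A M] [IsScalarTower k A M] :
    Module.length A M = Module.length k M := by
  have hloc : IsLocalHom (algebraMap k A) := by
    constructor
    intro a ha
    by_cases h0 : a = 0
    · rw [h0, map_zero] at ha
      exact absurd ha not_isUnit_zero
    · exact IsUnit.mk0 a h0
  rw [IsLocalRing.length_restrictScalars k A M]
  have hsurj : Function.Surjective (algebraMap (ResidueField k) (ResidueField A)) := by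
    intro r
    obtain ⟨a, rfl⟩ := residue_surjective r
    obtain ⟨c, hc⟩ := hres a
    refine ⟨residue k c, ?_⟩
    rw [ResidueField.algebraMap_residue]
    symm
    rw [← sub_eq_zero, ← map_sub]
    exact (residue_eq_zero_iff _).2 hc
  rw [Module.length_eq_of_surjective hsurj]
  have : Module.length (ResidueField A) (ResidueField A) = 1 := Module.length_eq_one _ _
  rw [this, mul_one]

theorem length_eq_finrank (hres : ∀ a : A, ∃ c : k, a - algebraMap k A c ∈ maximalIdeal A)
    (M : Type*) [AddCommGroup M] [Module k M] [Module A M] [IsScalarTower k A M]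
    [FiniteDimensional k M] : Module.length A M = Module.finrank k M := by
  rw [length_eq_length hres M, Module.length_eq_finrank]

theorem finite_of_artinian (hres : ∀ a : A, ∃ c : k, a - algebraMap k A c ∈ maximalIdeal A)
    [IsArtinianRing A] : FiniteDimensional k A := by
  have h1 : Module.length A A ≠ ⊤ := Module.length_ne_top
  rw [length_eq_length hres A, Module.length_ne_top_iff,
    isFiniteLength_iff_isNoetherian_isArtinian] at h1
  have := h1.1
  infer_instance

end length

end Pool.Agent.H38.SymDec
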