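import Pool.Agent.H38.SymDec.Linear

/-!
Growth of the sums of rows of the fine array.
-/

open Module Polynomial

namespace Pool.Agent.H38.SymDec

namespace FData

variable {k : Type*} {V : Type*} [Field k] [AddCommGroup V] [Module k V] (D : FData k V)
variable [FiniteDimensional k V]

/-- The dimension of `F j` modulo `Ws (e - j) j`. -/
noncomputable def G (e j : ℕ) : ℕ := finrank k (D.F j) - D.W (e - j) j

theorem G_add (e j : ℕ) : D.G e j + finrank k (D.K e j) = j / 2 + 1 := by
  have h1 := D.K_count e j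
  have h2 := D.W_le (e - j) j
  unfold G
  omega

theorem G_zero {e : ℕ} (h : D.U ≤ e) (j : ℕ) : D.G e j = 0 := by
  unfold G W
  rw [D.Ws_top (by omega)]
  exact Nat.sub_self _

theorem G_step (e j : ℕ) : D.G e j = (if j + 1 ≤ e + 1 then D.n (e - j) j else 0) + D.G (e + 1) j := by
  have h2 := D.W_le (e + 1 - j) j
  unfold G
  split_ifs with h
  · have h1 := D.W_mono (Nat.le_succ (e - j)) j
    unfold n
    rw [show e + 1 - j = e - j + 1 by omega] at h2 ⊢
    simp only [Nat.succ_eq_add_one] at h1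
    omega
  · rw [show e + 1 - j = e - j by omega]
    omega

theorem S_eq (e j : ℕ) :
    S D.U (DD D.n) (e + 1) j = D.G e j + (if 1 ≤ j then D.G e (j - 1) else 0) := by
  by_cases he : D.U ≤ e
  · rw [S_top _ _ (by omega), D.G_zero he, D.G_zero he]
    simp
  · have key : ∀ m e, D.U = e + m → S D.U (DD D.n) (e + 1) j =
        D.G e j + (if 1 ≤ j then D.G e (j - 1) else 0) := by
      intro m
      induction m with
      | zero =>
        intro e hm
        rw [S_top _ _ (by omega), D.G_zero (by omega), D.G_zero (by omega)]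
        simp
      | succ m ih =>
        intro e hm
        rw [S_succ _ _ (by omega), ih (e + 1) (by omega), D.G_step e j]
        unfold DD
        rw [show e + 1 - 1 - j = e - j by omega]
        by_cases hj : 1 ≤ j
        · rw [if_pos hj, if_pos hj, D.G_step e (j - 1)]
          by_cases hj2 : j ≤ e + 1
          · rw [if_pos (⟨hj, hj2⟩ : 1 ≤ j ∧ j ≤ e + 1), if_pos (by omega : j - 1 + 1 ≤ e + 1),
              show e - (j - 1) = e + 1 - j by omega]
            omega
          · rw [if_neg (fun h => hj2 h.2 : ¬ (1 ≤ j ∧ j ≤ e + 1)),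
              if_neg (by omega : ¬ (j - 1 + 1 ≤ e + 1))]
            omega
        · rw [if_neg hj, if_neg hj, if_neg (fun h => hj h.1 : ¬ (1 ≤ j ∧ j ≤ e + 1))]
          omega
    exact key (D.U - e) e (by omega)

theorem S_zero_eq (j : ℕ) : S D.U (DD D.n) 0 j = S D.U (DD D.n) 1 j := by
  have h0 : DD D.n 0 j = 0 := by
    unfold DD
    rw [if_neg (by omega), if_neg (by omega)]
  rw [S_succ _ _ (Nat.zero_le _), h0, Nat.zero_add]

theorem hle (E j : ℕ) : S D.U (DD D.n) E j ≤ j + 1 := by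
  have key : ∀ e, S D.U (DD D.n) (e + 1) j ≤ j + 1 := by
    intro e
    rw [D.S_eq]
    have h1 := D.G_add e j
    have h2 := D.G_add e (j - 1)
    split_ifs <;> omega
  rcases Nat.eq_zero_or_pos E with rfl | hE
  · rw [D.S_zero_eq]; exact key 0
  · obtain ⟨e, rfl⟩ := Nat.exists_eq_add_of_lt hE
    rw [Nat.zero_add]
    exact key e

theorem hgrow (E j : ℕ) (h : S D.U (DD D.n) E j < j + 1) :
    S D.U (DD D.n) E (j + 1) ≤ S D.U (DD D.n) E j := by
  have key : ∀ e, S D.U (DD D.n) (e + 1) j < j + 1 →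
      S D.U (DD D.n) (e + 1) (j + 1) ≤ S D.U (DD D.n) (e + 1) j := by
    intro e he
    rw [D.S_eq] at he ⊢
    rw [D.S_eq, if_pos (by omega), Nat.add_sub_cancel]
    have h1 := D.G_add e j
    have h3 := D.G_add e (j + 1)
    have m1 := D.K_mono_finrank e j
    by_cases hj : 1 ≤ j
    · rw [if_pos hj] at he ⊢
      have h2 := D.G_add e (j - 1)
      have m2 := D.K_mono_finrank e (j - 1)
      have g2 := D.K_growth e (j - 1)
      rw [show j - 1 + 1 = j by omega] at m2
      rw [show j - 1 + 2 = j + 1 by omega] at g2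
      by_cases hk : 0 < finrank k (D.K e (j - 1))
      · have := g2 hk
        omega
      · omega
    · rw [if_neg hj] at he ⊢
      have hj0 : j = 0 := by omega
      subst hj0
      omega
  rcases Nat.eq_zero_or_pos E with rfl | hE
  · rw [D.S_zero_eq] at h ⊢
    rw [D.S_zero_eq]
    exact key 0 h
  · obtain ⟨e, rfl⟩ := Nat.exists_eq_add_of_lt hE
    rw [Nat.zero_add] at h ⊢
    exact key e h

/-- The coarse array is determined by its column sums. -/
theorem coarse_eq (h : ℕ → ℕ) (hh : ∀ Q, h Q = ∑ P ∈ Finset.range D.U, nc D.n P Q) (P Q : ℕ) :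
    nc D.n P Q = pred h P Q :=
  coarse D.U D.n D.n_symm (fun _ _ h => D.n_zero h) D.hle D.hgrow h hh P Q

/-! ### Coarse spaces -/

/-- The spaces of the coarse decomposition. -/
def Wc (P Q : ℕ) : Submodule k V :=
  (D.F (2 * Q) ⊓ D.B.orthogonal (D.F (2 * P))) ⊔ D.F (2 * Q + 2)

theorem Wc_formula (P Q : ℕ) :
    finrank k (D.Wc P Q) + finrank k ↥(D.F (2 * Q + 2) ⊓ D.B.orthogonal (D.F (2 * P))) =
    finrank k ↥(D.F (2 * Q) ⊓ D.B.orthogonal (D.F (2 * P))) + finrank k (D.F (2 * Q + 2)) := by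
  have h := Submodule.finrank_sup_add_finrank_inf_eq (D.F (2 * Q) ⊓ D.B.orthogonal (D.F (2 * P)))
    (D.F (2 * Q + 2))
  have h1 : D.F (2 * Q) ⊓ D.B.orthogonal (D.F (2 * P)) ⊓ D.F (2 * Q + 2) =
      D.F (2 * Q + 2) ⊓ D.B.orthogonal (D.F (2 * P)) := by
    apply le_antisymm
    · exact le_inf inf_le_right (inf_le_left.trans inf_le_right)
    · exact le_inf (le_inf (inf_le_left.trans (D.antitone (by omega))) inf_le_right) inf_le_left
  rw [h1] at h
  exact h

theorem nc_eq (P Q : ℕ) :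
    finrank k (D.Wc P Q) + nc D.n P Q = finrank k (D.Wc (P + 1) Q) := by
  have w1 := D.Wc_formula P Q
  have w2 := D.Wc_formula (P + 1) Q
  have a1 := D.W_formula (2 * P) (2 * Q)
  have a2 := D.W_formula (2 * P + 1) (2 * Q)
  have a3 := D.W_formula (2 * P + 2) (2 * Q)
  have b1 := D.W_formula (2 * P) (2 * Q + 1)
  have b2 := D.W_formula (2 * P + 1) (2 * Q + 1)
  have b3 := D.W_formula (2 * P + 2) (2 * Q + 1)
  have m1 := D.W_mono (Nat.le_succ (2 * P)) (2 * Q)
  have m2 := D.W_mono (Nat.le_succ (2 * P + 1)) (2 * Q)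
  have m3 := D.W_mono (Nat.le_succ (2 * P)) (2 * Q + 1)
  have m4 := D.W_mono (Nat.le_succ (2 * P + 1)) (2 * Q + 1)
  simp only [Nat.succ_eq_add_one] at m1 m2 m3 m4
  rw [show 2 * P + 1 + 1 = 2 * P + 2 by ring] at m2 m4
  rw [show 2 * Q + 1 + 1 = 2 * Q + 2 by ring] at b1 b2 b3
  rw [show 2 * (P + 1) = 2 * P + 2 by ring] at w2
  unfold nc n
  rw [show 2 * P + 1 + 1 = 2 * P + 2 by ring]
  omega

theorem nc_sum (Q : ℕ) (m : ℕ) :
    finrank k (D.Wc 0 Q) + ∑ P ∈ Finset.range m, nc D.n P Q = finrank k (D.Wc m Q) := by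
  induction m with
  | zero => simp
  | succ m ih => rw [Finset.sum_range_succ, ← add_assoc, ih, D.nc_eq]

theorem Wc_zero (Q : ℕ) : D.Wc 0 Q = D.F (2 * Q + 2) := by
  unfold Wc
  have : D.B.orthogonal (D.F (2 * 0)) = ⊥ := by
    rw [Nat.mul_zero, D.F0]
    rw [eq_bot_iff]
    intro v hv
    rw [LinearMap.BilinForm.mem_orthogonal_iff] at hv
    refine (Submodule.mem_bot k).2 ?_
    exact D.nd.2 v fun w => hv w trivial
  rw [this, inf_bot_eq, bot_sup_eq]

theorem Wc_top {P Q : ℕ} (h : D.U ≤ 2 * P + 2 * Q) : D.Wc P Q = D.F (2 * Q) := by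
  apply le_antisymm
  · exact sup_le inf_le_left (D.antitone (by omega))
  · refine le_trans ?_ le_sup_left
    refine le_inf le_rfl ?_
    intro v hv
    rw [LinearMap.BilinForm.mem_orthogonal_iff]
    intro w hw
    exact D.mul _ _ h w hw v hv

/-- Main result of the linear algebra part: the dimensions of the graded pieces of the coarse
decomposition are determined by `h`. -/
theorem main (h : ℕ → ℕ) (hh : ∀ Q, finrank k (D.F (2 * Q + 2)) + h Q = finrank k (D.F (2 * Q)))
    (P Q : ℕ) : finrank k (D.Wc P Q) + pred h P Q = finrank k (D.Wc (P + 1) Q) := by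
  rw [← D.coarse_eq h ?_ P Q, D.nc_eq]
  intro Q
  have h1 := D.nc_sum Q D.U
  have h2 := hh Q
  rw [D.Wc_zero, D.Wc_top (by omega)] at h1
  omega

end FData

end Pool.Agent.H38.SymDec
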