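import Pool.Agent.H38.SymDec.Coarse

/-!
Linear algebra part: filtered self-dual modules with one generator over a polynomial ring in two
variables of weights `2` and `1`.
-/

open Module Polynomial

namespace Pool.Agent.H38.SymDec

/-- Rank symmetry. -/
theorem rank_symm {k : Type*} [Field k] {V : Type*} [AddCommGroup V] [Module k V]
    [FiniteDimensional k V] (B : LinearMap.BilinForm k V) (hB : B.Nondegenerate) (hs : B.IsSymm)
    (S T : Submodule k V) :
    finrank k S + finrank k ↥(T ⊓ B.orthogonal S) = finrank k T + finrank k ↥(S ⊓ B.orthogonal T) := by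
  have hr : B.IsRefl := hs.isRefl
  have h1 : B.orthogonal (B.orthogonal S ⊔ T) = S ⊓ B.orthogonal T := by
    have : B.orthogonal (B.orthogonal S ⊔ T) = B.orthogonal (B.orthogonal S) ⊓ B.orthogonal T := by
      apply le_antisymm
      · exact le_inf (LinearMap.BilinForm.orthogonal_le le_sup_left)
          (LinearMap.BilinForm.orthogonal_le le_sup_right)
      · intro x hx
        rw [Submodule.mem_inf] at hx
        rw [LinearMap.BilinForm.mem_orthogonal_iff]
        intro y hy
        obtain ⟨a, ha, b, hb, rfl⟩ := Submodule.mem_sup.1 hy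
        have e1 := (LinearMap.BilinForm.mem_orthogonal_iff.1 hx.1) a ha
        have e2 := (LinearMap.BilinForm.mem_orthogonal_iff.1 hx.2) b hb
        rw [map_add, LinearMap.add_apply, e1, e2, add_zero]
    rw [this, LinearMap.BilinForm.orthogonal_orthogonal hB hr]
  have h2 := LinearMap.BilinForm.finrank_orthogonal hB (B.orthogonal S ⊔ T)
  have h3 := LinearMap.BilinForm.finrank_orthogonal hB S
  have h4 := Submodule.finrank_sup_add_finrank_inf_eq (B.orthogonal S) T
  rw [h1] at h2
  have h5 : T ⊓ B.orthogonal S = B.orthogonal S ⊓ T := inf_comm _ _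
  rw [h5]
  have h6 := Submodule.finrank_le S
  have h7 := Submodule.finrank_le (B.orthogonal S ⊔ T)
  have h8 := Submodule.finrank_le (S ⊓ B.orthogonal T)
  omega

/-- Filtered self-dual module with one generator `v0` over the polynomial ring in two variables
acting through `X` (weight two) and `Y` (weight one). -/
structure FData (k : Type*) (V : Type*) [Field k] [AddCommGroup V] [Module k V] where
  F : ℕ → Submodule k V
  X : V →ₗ[k] V
  Y : V →ₗ[k] V
  B : LinearMap.BilinForm k V
  v0 : V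
  U : ℕ
  nd : B.Nondegenerate
  sy : B.IsSymm
  F0 : F 0 = ⊤
  anti : ∀ j, F (j + 1) ≤ F j
  FU : F U = ⊥
  hX : ∀ j, ∀ v ∈ F j, X v ∈ F (j + 2)
  hY : ∀ j, ∀ v ∈ F j, Y v ∈ F (j + 1)
  comm : ∀ v, X (Y v) = Y (X v)
  adjX : ∀ v w, B (X v) w = B v (X w)
  adjY : ∀ v w, B (Y v) w = B v (Y w)
  mul : ∀ a b, U ≤ a + b → ∀ v ∈ F a, ∀ w ∈ F b, B v w = 0
  span : ∀ j, F j ≤ Submodule.span k
    (Set.range fun a : Fin (j / 2 + 1) => (X ^ (a : ℕ)) ((Y ^ (j - 2 * (a : ℕ))) v0)) ⊔ F (j + 1)

namespace FData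

variable {k : Type*} {V : Type*} [Field k] [AddCommGroup V] [Module k V] (D : FData k V)

theorem antitone {a b : ℕ} (h : a ≤ b) : D.F b ≤ D.F a := antitone_nat_of_succ_le D.anti h

theorem F_eq_bot {j : ℕ} (h : D.U ≤ j) : D.F j = ⊥ := by
  rw [eq_bot_iff, ← D.FU]
  exact D.antitone h

/-- The spaces whose dimensions define the decomposition. -/
def Ws (p j : ℕ) : Submodule k V := (D.F j ⊓ D.B.orthogonal (D.F p)) ⊔ D.F (j + 1)

/-- Their dimensions. -/
noncomputable def W (p j : ℕ) : ℕ := finrank k (D.Ws p j)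

theorem Ws_le (p j : ℕ) : D.Ws p j ≤ D.F j := sup_le inf_le_left (D.anti j)

theorem Ws_mono {p q : ℕ} (h : p ≤ q) (j : ℕ) : D.Ws p j ≤ D.Ws q j :=
  sup_le_sup_right (inf_le_inf_left _ (LinearMap.BilinForm.orthogonal_le (D.antitone h))) _

theorem Ws_top {p j : ℕ} (h : D.U ≤ p + j) : D.Ws p j = D.F j := by
  apply le_antisymm (D.Ws_le p j)
  refine le_trans ?_ le_sup_left
  refine le_inf le_rfl ?_
  intro v hv
  rw [LinearMap.BilinForm.mem_orthogonal_iff]
  intro w hw
  exact D.mul p j h w hw v hv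

variable [FiniteDimensional k V]

theorem W_mono {p q : ℕ} (h : p ≤ q) (j : ℕ) : D.W p j ≤ D.W q j :=
  Submodule.finrank_mono (D.Ws_mono h j)

theorem W_le (p j : ℕ) : D.W p j ≤ finrank k (D.F j) := Submodule.finrank_mono (D.Ws_le p j)

/-- The fine array. -/
noncomputable def n (p j : ℕ) : ℕ := D.W (p + 1) j - D.W p j

theorem W_formula (p j : ℕ) : D.W p j + finrank k ↥(D.F (j + 1) ⊓ D.B.orthogonal (D.F p)) =
    finrank k ↥(D.F j ⊓ D.B.orthogonal (D.F p)) + finrank k (D.F (j + 1)) := by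
  have h := Submodule.finrank_sup_add_finrank_inf_eq (D.F j ⊓ D.B.orthogonal (D.F p)) (D.F (j + 1))
  have h1 : D.F j ⊓ D.B.orthogonal (D.F p) ⊓ D.F (j + 1) =
      D.F (j + 1) ⊓ D.B.orthogonal (D.F p) := by
    apply le_antisymm
    · exact le_inf inf_le_right (inf_le_left.trans inf_le_right)
    · exact le_inf (le_inf (inf_le_left.trans (D.anti j)) inf_le_right) inf_le_left
  rw [h1] at h
  exact h

theorem n_symm (p j : ℕ) : D.n p j = D.n j p := by
  have w1 := D.W_formula p j
  have w2 := D.W_formula (p + 1) j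
  have w3 := D.W_formula j p
  have w4 := D.W_formula (j + 1) p
  have m1 := D.W_mono (Nat.le_succ p) j
  have m2 := D.W_mono (Nat.le_succ j) p
  have r1 := rank_symm D.B D.nd D.sy (D.F j) (D.F p)
  have r2 := rank_symm D.B D.nd D.sy (D.F (j + 1)) (D.F p)
  have r3 := rank_symm D.B D.nd D.sy (D.F j) (D.F (p + 1))
  have r4 := rank_symm D.B D.nd D.sy (D.F (j + 1)) (D.F (p + 1))
  unfold n
  simp only [Nat.succ_eq_add_one] at m1 m2
  omega

theorem n_zero {p j : ℕ} (h : D.U ≤ p + j) : D.n p j = 0 := by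
  unfold n W
  rw [D.Ws_top h, D.Ws_top (by omega : D.U ≤ p + 1 + j)]
  simp

/-! ### Growth -/

/-- The parametrisation of `F j` modulo `F (j + 1)`. -/
noncomputable def Φ (j : ℕ) : k[X] →ₗ[k] V :=
  ∑ a ∈ Finset.range (j / 2 + 1),
    (Polynomial.lcoeff k a).smulRight ((D.X ^ a) ((D.Y ^ (j - 2 * a)) D.v0))

omit [FiniteDimensional k V] in
theorem Φ_apply (j : ℕ) (p : k[X]) : D.Φ j p =
    ∑ a ∈ Finset.range (j / 2 + 1), p.coeff a • (D.X ^ a) ((D.Y ^ (j - 2 * a)) D.v0) := by
  unfold Φ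
  rw [LinearMap.sum_apply]
  rfl

omit [FiniteDimensional k V] in
theorem commX (a : ℕ) (v : V) : (D.X ^ a) (D.Y v) = D.Y ((D.X ^ a) v) := by
  induction a with
  | zero => rfl
  | succ a ih => rw [pow_succ', Module.End.mul_apply, Module.End.mul_apply, ih, D.comm]

omit [FiniteDimensional k V] in
theorem Φ_X (j : ℕ) (p : k[X]) : D.Φ (j + 2) (Polynomial.X * p) = D.X (D.Φ j p) := by
  rw [Φ_apply, Φ_apply, map_sum, show (j + 2) / 2 + 1 = (j / 2 + 1) + 1 by omega,
    Finset.sum_range_succ']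
  simp only [coeff_X_mul, coeff_X_mul_zero, zero_smul, add_zero]
  refine Finset.sum_congr rfl fun a ha => ?_
  rw [map_smul, show j + 2 - 2 * (a + 1) = j - 2 * a by omega, pow_succ' D.X a,
    Module.End.mul_apply]

omit [FiniteDimensional k V] in
theorem Φ_Y (j : ℕ) (p : k[X]) (hp : p ∈ degreeLT k (j / 2 + 1)) :
    D.Φ (j + 1) p = D.Y (D.Φ j p) := by
  have hcoef : ∀ a, j / 2 + 1 ≤ a → p.coeff a = 0 := fun a ha =>
    coeff_eq_zero_of_degree_lt ((mem_degreeLT.1 hp).trans_le (by exact_mod_cast ha))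
  have h1 : D.Φ (j + 1) p = ∑ a ∈ Finset.range (j / 2 + 1),
      p.coeff a • (D.X ^ a) ((D.Y ^ (j + 1 - 2 * a)) D.v0) := by
    rw [Φ_apply]
    rcases Nat.even_or_odd' j with ⟨m, rfl | rfl⟩
    · rw [show (2 * m + 1) / 2 = 2 * m / 2 by omega]
    · rw [show (2 * m + 1 + 1) / 2 + 1 = ((2 * m + 1) / 2 + 1) + 1 by omega,
        Finset.sum_range_succ _ ((2 * m + 1) / 2 + 1), hcoef _ le_rfl, zero_smul, add_zero]
  rw [h1, Φ_apply, map_sum]
  refine Finset.sum_congr rfl fun a ha => ?_
  rw [Finset.mem_range] at ha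
  rw [map_smul, show j + 1 - 2 * a = (j - 2 * a) + 1 by omega, pow_succ' D.Y,
    Module.End.mul_apply, D.commX]

omit [FiniteDimensional k V] in
theorem pow_mem (a b : ℕ) : (D.X ^ a) ((D.Y ^ b) D.v0) ∈ D.F (2 * a + b) := by
  induction a with
  | zero =>
    induction b with
    | zero => rw [D.F0]; trivial
    | succ b ih =>
      have := D.hY _ _ ih
      rw [pow_succ' D.Y, Module.End.mul_apply, D.commX]
      exact this
  | succ a ih =>
    have := D.hX _ _ ih
    rw [pow_succ' D.X, Module.End.mul_apply, show 2 * (a + 1) + b = 2 * a + b + 2 by ring]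
    exact this

omit [FiniteDimensional k V] in
theorem Φ_mem (j : ℕ) (p : k[X]) : D.Φ j p ∈ D.F j := by
  rw [Φ_apply]
  refine Submodule.sum_mem _ fun a ha => Submodule.smul_mem _ _ ?_
  rw [Finset.mem_range] at ha
  have := D.pow_mem a (j - 2 * a)
  rwa [show 2 * a + (j - 2 * a) = j by omega] at this

/-- Relations in degree `j` modulo the subspace `Ws (e - j) j`. -/
noncomputable def K (e j : ℕ) : Submodule k k[X] :=
  degreeLT k (j / 2 + 1) ⊓ (D.Ws (e - j) j).comap (D.Φ j)

omit [FiniteDimensional k V] in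
theorem Ws_Y (e j : ℕ) {v : V} (hv : v ∈ D.Ws (e - j) j) : D.Y v ∈ D.Ws (e - (j + 1)) (j + 1) := by
  obtain ⟨a, ha, b, hb, rfl⟩ := Submodule.mem_sup.1 hv
  rw [map_add]
  refine Submodule.add_mem _ ?_ ?_
  · refine Submodule.mem_sup_left ⟨D.hY _ _ ha.1, ?_⟩
    have ha2 := LinearMap.BilinForm.mem_orthogonal_iff.1 ha.2
    rw [SetLike.mem_coe, LinearMap.BilinForm.mem_orthogonal_iff]
    intro w hw
    rw [← D.adjY]
    exact ha2 _ (D.antitone (by omega) (D.hY _ _ hw))
  · exact Submodule.mem_sup_right (D.hY _ _ hb)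

omit [FiniteDimensional k V] in
theorem Ws_X (e j : ℕ) {v : V} (hv : v ∈ D.Ws (e - j) j) : D.X v ∈ D.Ws (e - (j + 2)) (j + 2) := by
  obtain ⟨a, ha, b, hb, rfl⟩ := Submodule.mem_sup.1 hv
  rw [map_add]
  refine Submodule.add_mem _ ?_ ?_
  · refine Submodule.mem_sup_left ⟨D.hX _ _ ha.1, ?_⟩
    have ha2 := LinearMap.BilinForm.mem_orthogonal_iff.1 ha.2
    rw [SetLike.mem_coe, LinearMap.BilinForm.mem_orthogonal_iff]
    intro w hw
    rw [← D.adjX]
    exact ha2 _ (D.antitone (by omega) (D.hX _ _ hw))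
  · exact Submodule.mem_sup_right (D.hX _ _ hb)

omit [FiniteDimensional k V] in
theorem K_mono (e j : ℕ) : D.K e j ≤ D.K e (j + 1) := by
  intro p hp
  refine ⟨?_, ?_⟩
  · exact degreeLT_mono (by omega) hp.1
  · rw [SetLike.mem_coe, Submodule.mem_comap, D.Φ_Y j p hp.1]
    exact D.Ws_Y e j hp.2

omit [FiniteDimensional k V] in
theorem K_X (e j : ℕ) {p : k[X]} (hp : p ∈ D.K e j) : Polynomial.X * p ∈ D.K e (j + 2) := by
  refine ⟨?_, ?_⟩
  · rw [SetLike.mem_coe, mem_degreeLT]
    have h1 := mem_degreeLT.1 hp.1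
    by_cases h0 : p = 0
    · rw [h0, mul_zero, degree_zero]
      exact WithBot.bot_lt_coe _
    · rw [degree_eq_natDegree h0] at h1
      rw [degree_eq_natDegree (mul_ne_zero X_ne_zero h0), natDegree_X_mul h0]
      have h2 : p.natDegree < j / 2 + 1 := by exact_mod_cast h1
      have h3 : p.natDegree + 1 < (j + 2) / 2 + 1 := by omega
      exact_mod_cast h3
  · rw [SetLike.mem_coe, Submodule.mem_comap, D.Φ_X]
    exact D.Ws_X e j hp.2

instance (m : ℕ) : FiniteDimensional k (degreeLT k m) :=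
  Module.Finite.of_surjective (degreeLTEquiv k m).symm.toLinearMap (degreeLTEquiv k m).symm.surjective

theorem finrank_degreeLT (m : ℕ) : finrank k (degreeLT k m) = m := by
  rw [LinearEquiv.finrank_eq (degreeLTEquiv k m)]
  simp

instance K_fin (e j : ℕ) : FiniteDimensional k (D.K e j) :=
  Submodule.finiteDimensional_of_le (inf_le_left : D.K e j ≤ degreeLT k (j / 2 + 1))

/-- Dimension count. -/
theorem K_count (e j : ℕ) :
    finrank k (D.K e j) + finrank k (D.F j) = j / 2 + 1 + D.W (e - j) j := by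
  -- the map from `degreeLT` to the quotient of `F j` by `Ws`
  set N := D.Ws (e - j) j with hN
  let f : degreeLT k (j / 2 + 1) →ₗ[k] V ⧸ N := (N.mkQ.comp (D.Φ j)).comp (Submodule.subtype _)
  have h1 := LinearMap.finrank_range_add_finrank_ker f
  rw [finrank_degreeLT] at h1
  have hker : finrank k (LinearMap.ker f) = finrank k (D.K e j) := by
    have : D.K e j = (LinearMap.ker f).map (Submodule.subtype _) := by
      ext p
      rw [Submodule.mem_map]
      constructor
      · intro hp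
        refine ⟨⟨p, hp.1⟩, ?_, rfl⟩
        rw [LinearMap.mem_ker]
        change N.mkQ (D.Φ j p) = 0
        rw [Submodule.mkQ_apply, Submodule.Quotient.mk_eq_zero]
        exact hp.2
      · rintro ⟨⟨q, hq⟩, hq2, rfl⟩
        refine ⟨hq, ?_⟩
        rw [LinearMap.mem_ker] at hq2
        change N.mkQ (D.Φ j q) = 0 at hq2
        rw [Submodule.mkQ_apply, Submodule.Quotient.mk_eq_zero] at hq2
        exact hq2
    rw [this, Submodule.finrank_map_subtype_eq]
  have hrange : LinearMap.range f = (D.F j).map N.mkQ := by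
    apply le_antisymm
    · rintro _ ⟨⟨p, hp⟩, rfl⟩
      exact ⟨D.Φ j p, D.Φ_mem j p, rfl⟩
    · have h2 : (D.F j).map N.mkQ ≤ (Submodule.span k (Set.range fun a : Fin (j / 2 + 1) =>
          (D.X ^ (a : ℕ)) ((D.Y ^ (j - 2 * (a : ℕ))) D.v0)) ⊔ D.F (j + 1)).map N.mkQ :=
        Submodule.map_mono (D.span j)
      refine h2.trans ?_
      rw [Submodule.map_sup, Submodule.map_span]
      refine sup_le ?_ ?_
      · rw [Submodule.span_le]
        rintro _ ⟨_, ⟨a, rfl⟩, rfl⟩
        have hmem : (Polynomial.X ^ (a : ℕ) : k[X]) ∈ degreeLT k (j / 2 + 1) := by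
          rw [mem_degreeLT, degree_X_pow]
          exact_mod_cast a.2
        refine ⟨⟨_, hmem⟩, ?_⟩
        change N.mkQ (D.Φ j (Polynomial.X ^ (a : ℕ))) = _
        congr 1
        rw [Φ_apply]
        rw [Finset.sum_eq_single (a : ℕ)]
        · rw [coeff_X_pow_self, one_smul]
        · intro b _ hb
          rw [coeff_X_pow, if_neg hb, zero_smul]
        · intro h
          exact absurd (Finset.mem_range.2 a.2) h
      · rintro _ ⟨v, hv, rfl⟩
        have : N.mkQ v = 0 := by
          rw [Submodule.mkQ_apply, Submodule.Quotient.mk_eq_zero]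
          exact Submodule.mem_sup_right hv
        rw [this]
        exact Submodule.zero_mem _
  have h3 : finrank k ((D.F j).map N.mkQ) + finrank k N = finrank k (D.F j) := by
    let g : D.F j →ₗ[k] V ⧸ N := N.mkQ.comp (Submodule.subtype _)
    have h4 := LinearMap.finrank_range_add_finrank_ker g
    have h5 : LinearMap.range g = (D.F j).map N.mkQ := by
      rw [LinearMap.range_comp, Submodule.range_subtype]
    have h6 : finrank k (LinearMap.ker g) = finrank k N := by
      have : N = (LinearMap.ker g).map (Submodule.subtype _) := by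
        ext v
        rw [Submodule.mem_map]
        constructor
        · intro hv
          refine ⟨⟨v, D.Ws_le _ _ hv⟩, ?_, rfl⟩
          rw [LinearMap.mem_ker]
          change N.mkQ v = 0
          rw [Submodule.mkQ_apply, Submodule.Quotient.mk_eq_zero]
          exact hv
        · rintro ⟨⟨q, hq⟩, hq2, rfl⟩
          rw [LinearMap.mem_ker] at hq2
          change N.mkQ q = 0 at hq2
          rw [Submodule.mkQ_apply, Submodule.Quotient.mk_eq_zero] at hq2
          exact hq2
      conv_rhs => rw [this]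
      rw [Submodule.finrank_map_subtype_eq]
    rw [h5, h6] at h4
    exact h4
  rw [hrange, hker] at h1
  have h7 : D.W (e - j) j = finrank k N := rfl
  omega

theorem K_mono_finrank (e j : ℕ) : finrank k (D.K e j) ≤ finrank k (D.K e (j + 1)) :=
  Submodule.finrank_mono (D.K_mono e j)

theorem K_growth (e j : ℕ) (h : 0 < finrank k (D.K e j)) :
    finrank k (D.K e j) + 1 ≤ finrank k (D.K e (j + 2)) := by
  -- an element of maximal degree
  set K0 := D.K e j with hK0
  have hne : ∃ p ∈ K0, p ≠ 0 := by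
    by_contra hcon
    push Not at hcon
    have : K0 = ⊥ := by
      rw [eq_bot_iff]
      intro p hp
      exact hcon p hp
    rw [this, finrank_bot] at h
    exact absurd h (lt_irrefl _)
  have hbound : ∀ p ∈ K0, p.natDegree ≤ j / 2 := by
    intro p hp
    by_cases h0 : p = 0
    · rw [h0, natDegree_zero]; exact Nat.zero_le _
    have h1 := mem_degreeLT.1 hp.1
    rw [degree_eq_natDegree h0] at h1
    have h2 : p.natDegree < j / 2 + 1 := by exact_mod_cast h1
    omega
  -- choose natDegree maximal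
  have hmax : ∃ p ∈ K0, p ≠ 0 ∧ ∀ q ∈ K0, q.natDegree ≤ p.natDegree := by
    classical
    have hP : ∃ d, d ≤ j / 2 ∧ ∃ p ∈ K0, p ≠ 0 ∧ p.natDegree = d := by
      obtain ⟨p, hp, hp0⟩ := hne
      exact ⟨p.natDegree, hbound p hp, p, hp, hp0, rfl⟩
    let d := Nat.findGreatest (fun d => ∃ p ∈ K0, p ≠ 0 ∧ p.natDegree = d) (j / 2)
    obtain ⟨d0, hd0, hP0⟩ := hP
    have hd := Nat.findGreatest_spec (P := fun d => ∃ p ∈ K0, p ≠ 0 ∧ p.natDegree = d) hd0 hP0
    obtain ⟨p, hp, hp0, hpd⟩ := hd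
    refine ⟨p, hp, hp0, ?_⟩
    intro q hq
    by_cases hq0 : q = 0
    · rw [hq0, natDegree_zero]; exact Nat.zero_le _
    rw [hpd]
    exact Nat.le_findGreatest (hbound q hq) ⟨q, hq, hq0, rfl⟩
  obtain ⟨p, hp, hp0, hpmax⟩ := hmax
  have hle : K0 ≤ D.K e (j + 2) := (D.K_mono e j).trans (D.K_mono e (j + 1))
  have hlt : K0 < D.K e (j + 2) := by
    refine lt_of_le_of_ne hle ?_
    intro heq
    have h1 := D.K_X e j hp
    rw [← heq] at h1
    have h2 := hpmax _ h1
    rw [natDegree_X_mul hp0] at h2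
    omega
  exact Submodule.finrank_lt_finrank_of_lt hlt

end FData

end Pool.Agent.H38.SymDec
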