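import Mathlib

/-!
Numerical part: symmetric arrays whose sums over diagonals from the top satisfy the growth
condition of Hilbert functions of quotients of a polynomial ring in two variables.
-/

namespace Pool.Agent.H38.SymDec

/-- Sum of the rows `E, E + 1, ..., U` of the array `D`. -/
def S (U : ℕ) (D : ℕ → ℕ → ℕ) (E j : ℕ) : ℕ := ∑ E' ∈ Finset.Icc E U, D E' j

section

variable (U : ℕ) (D : ℕ → ℕ → ℕ)

theorem S_succ {E : ℕ} (hE : E ≤ U) (j : ℕ) : S U D E j = D E j + S U D (E + 1) j := by
  unfold S
  rw [Finset.Icc_eq_cons_Ioc hE, Finset.sum_cons]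
  congr 1
  refine Finset.sum_congr ?_ fun _ _ => rfl
  ext x
  simp only [Finset.mem_Ioc, Finset.mem_Icc]
  omega

theorem S_top {E : ℕ} (hE : U < E) (j : ℕ) : S U D E j = 0 := by
  unfold S
  rw [Finset.Icc_eq_empty (by omega)]
  simp

theorem S_zero_of_lt (hsupp : ∀ E j, E < j → D E j = 0) {j : ℕ} (hj : U < j) (E : ℕ) :
    S U D E j = 0 := by
  unfold S
  refine Finset.sum_eq_zero fun E' hE' => hsupp _ _ ?_
  rw [Finset.mem_Icc] at hE'
  omega

/-- Structure of symmetric arrays with the growth condition. -/
theorem numeric (hU : ∀ E, U < E → ∀ j, D E j = 0) (hsupp : ∀ E j, E < j → D E j = 0)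
    (hsym : ∀ E j, j ≤ E → D E j = D E (E - j)) (hle : ∀ E j, S U D E j ≤ j + 1)
    (hgrow : ∀ E j, S U D E j < j + 1 → S U D E (j + 1) ≤ S U D E j) :
    ∃ t : ℕ → ℕ, (∀ E, t (E + 1) ≤ t E) ∧ (∀ E, U < E → t E = 0) ∧
      ∀ E j, j ≤ E → D E j =
        ((Finset.Ico (t (E + 1)) (t E)).filter fun c => c ≤ j ∧ c ≤ E - j).card := by
  classical
  have hex : ∀ E, ∃ j, S U D E j ≤ j := fun E =>
    ⟨U + 1, by rw [S_zero_of_lt U D hsupp (Nat.lt_succ_self U)]; exact Nat.zero_le _⟩
  let t : ℕ → ℕ := fun E => Nat.find (hex E)
  have ht1 : ∀ E, S U D E (t E) ≤ t E := fun E => Nat.find_spec (hex E)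
  have ht2 : ∀ E j, j < t E → S U D E j = j + 1 := by
    intro E j hj
    have := Nat.find_min (hex E) hj
    have := hle E j
    omega
  -- beyond `t E` the row sums are bounded by `t E` and decrease
  have hanti1 : ∀ E k, S U D E (t E + k) ≤ t E := by
    intro E k
    induction k with
    | zero => exact ht1 E
    | succ k ih =>
      have : S U D E (t E + k) < t E + k + 1 := by omega
      exact (hgrow E _ this).trans ih
  have hanti : ∀ E j, t E ≤ j → S U D E j ≤ t E := by
    intro E j hj
    obtain ⟨k, rfl⟩ := Nat.exists_eq_add_of_le hj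
    exact hanti1 E k
  have hdec : ∀ E j, t E ≤ j → ∀ k, S U D E (j + k) ≤ S U D E j := by
    intro E j hj k
    induction k with
    | zero => exact le_rfl
    | succ k ih =>
      have h1 := hanti E (j + k) (by omega)
      exact (hgrow E (j + k) (by omega)).trans ih
  have hmono : ∀ E, t (E + 1) ≤ t E := by
    intro E
    by_contra hcon
    push Not at hcon
    have h1 := ht2 (E + 1) _ hcon
    have h2 := ht1 E
    rcases Nat.lt_or_ge U E with hUE | hUE
    · rw [S_top U D (by omega)] at h1
      omega
    · rw [S_succ U D hUE] at h2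
      omega
  have htop : ∀ E, U < E → t E = 0 := by
    intro E hE
    have : S U D E 0 ≤ 0 := by rw [S_top U D hE]
    exact Nat.eq_zero_of_le_zero (Nat.find_min' (hex E) this)
  have key : ∀ n E, E + n = U + 1 →
      (∀ j, j + t E ≤ E + 1 → S U D E j = min (t E) (j + 1)) := by
    intro n
    induction n with
    | zero =>
      intro E hE j _
      rw [S_top U D (by omega), htop E (by omega)]
      simp
    | succ n ih =>
      intro E hE j hj
      have hEU : E ≤ U := by omega
      have ih' := ih (E + 1) (by omega)
      set T := t (E + 1) with hT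
      set T' := t E with hT'
      have hTT : T ≤ T' := hmono E
      rcases Nat.lt_or_ge j T' with hjT | hjT
      · rw [ht2 E j hjT]
        omega
      have hup : S U D E j ≤ T' := hanti E j hjT
      rcases hTT.eq_or_lt with heq | hlt
      · have h1 := ih' j (by omega)
        have h2 := S_succ U D hEU j
        omega
      · -- the jump case
        have hzero : ∀ j, j ≤ E → min j (E - j) < T → D E j = 0 := by
          intro j hjE hmin
          have h3 : ∀ l, l < T → D E l = 0 := by
            intro l hl
            have h4 := ht2 (E + 1) l hl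
            have h5 := S_succ U D hEU l
            have h6 := hle E l
            omega
          rcases Nat.lt_or_ge j T with h | h
          · exact h3 j h
          · rw [hsym E j hjE]
            exact h3 _ (by omega)
        have hpos : T' - T ≤ D E (T' - 1) := by
          have h3 := ht2 E (T' - 1) (by omega)
          have h4 := hanti (E + 1) (T' - 1) (by omega)
          have h5 := S_succ U D hEU (T' - 1)
          omega
        have hle1 : T' - 1 ≤ E := by
          by_contra hcon
          have := hsupp E (T' - 1) (by omega)
          omega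
        have hge1 : T ≤ E - (T' - 1) := by
          by_contra hcon
          have := hzero (T' - 1) hle1 (by omega)
          omega
        have h7 := ih' (E - (T' - 1)) (by omega)
        have h8 := S_succ U D hEU (E - (T' - 1))
        have h9 := hsym E (T' - 1) hle1
        have h10 : T' ≤ S U D E (E - (T' - 1)) := by omega
        have h11 := hdec E j hjT (E - (T' - 1) - j)
        have h12 : j + (E - (T' - 1) - j) = E - (T' - 1) := by omega
        rw [h12] at h11
        omega
  have key' : ∀ E, ∀ j, j + t E ≤ E + 1 → S U D E j = min (t E) (j + 1) := by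
    intro E j hj
    rcases Nat.lt_or_ge U E with h | h
    · rw [S_top U D h, htop E h]
      simp
    · exact key (U + 1 - E) E (by omega) j hj
  refine ⟨t, hmono, htop, ?_⟩
  intro E j hjE
  have hcard : ((Finset.Ico (t (E + 1)) (t E)).filter fun c => c ≤ j ∧ c ≤ E - j).card =
      min (t E) (min j (E - j) + 1) - t (E + 1) := by
    have : ((Finset.Ico (t (E + 1)) (t E)).filter fun c => c ≤ j ∧ c ≤ E - j) =
        Finset.Ico (t (E + 1)) (min (t E) (min j (E - j) + 1)) := by
      ext c
      simp only [Finset.mem_filter, Finset.mem_Ico]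
      omega
    rw [this, Nat.card_Ico]
  rw [hcard]
  rcases Nat.lt_or_ge U E with hUE | hUE
  · rw [hU E hUE, htop E hUE]
    simp
  -- reduce to the smaller of `j` and `E - j`
  have hred : ∀ l, l ≤ E - l → D E l = min (t E) (l + 1) - t (E + 1) := by
    intro l hl
    have h1 := S_succ U D hUE l
    rcases Nat.lt_or_ge l (t (E + 1)) with h | h
    · have h2 := ht2 (E + 1) l h
      have h3 := hle E l
      omega
    · have h4 := key' (E + 1) l (by omega)
      rcases Nat.lt_or_ge l (t E) with h' | h'
      · have h5 := ht2 E l h'
        omega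
      · have h6 := key' E l (by omega)
        omega
  rcases Nat.le_total j (E - j) with h | h
  · rw [hred j h]
    congr 1
    omega
  · rw [hsym E j hjE, hred (E - j) (by omega)]
    congr 1
    omega

end

end Pool.Agent.H38.SymDec
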